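import Mathlib

-- part Pool.Agent.Lib.MP_bb5dbd_ag.Generic
section

set_option autoImplicit false

namespace Pool.Agent.Lib.MP_bb5dbd_ag

open MvPolynomial Filter

/-- The polynomial ring in three variables. -/
abbrev A3 : Type := MvPolynomial (Fin 3) ℂ

/-- The field of rational functions in three variables. -/
abbrev K3 : Type := FractionRing A3

/-- The filter of sets containing a nonempty Zariski open set. -/
def gen : Filter (Fin 3 → ℂ) where
  sets := {S | ∃ G : A3, G ≠ 0 ∧ ∀ x, eval x G ≠ 0 → x ∈ S}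
  univ_sets := ⟨1, one_ne_zero, fun _ _ => trivial⟩
  sets_of_superset := by
    rintro S T ⟨G, hG, h⟩ hST
    exact ⟨G, hG, fun x hx => hST (h x hx)⟩
  inter_sets := by
    rintro S T ⟨G, hG, h⟩ ⟨G', hG', h'⟩
    refine ⟨G * G', mul_ne_zero hG hG', fun x hx => ?_⟩
    rw [map_mul] at hx
    exact ⟨h x (left_ne_zero_of_mul hx), h' x (right_ne_zero_of_mul hx)⟩

theorem ev_ne_zero {G : A3} (hG : G ≠ 0) : ∀ᶠ x in gen, eval x G ≠ 0 :=
  ⟨G, hG, fun _ h => h⟩

theorem exists_ne_zero_of_open {U : Set (Fin 3 → ℂ)} (hU : IsOpen U) (hne : U.Nonempty)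
    {G : A3} (hG : G ≠ 0) : ∃ x ∈ U, eval x G ≠ 0 := by
  by_contra hcon
  push Not at hcon
  obtain ⟨x₀, hx₀⟩ := hne
  obtain ⟨u, hu, hsub⟩ := isOpen_pi_iff'.mp hU x₀ hx₀
  apply hG
  refine MvPolynomial.funext_set u
    (fun i => infinite_of_mem_nhds (x₀ i) ((hu i).1.mem_nhds (hu i).2)) fun x hx => ?_
  rw [map_zero]
  exact hcon x (hsub hx)

theorem exists_of_open {U : Set (Fin 3 → ℂ)} (hU : IsOpen U) (hne : U.Nonempty)
    {P : (Fin 3 → ℂ) → Prop} (hP : ∀ᶠ x in gen, P x) : ∃ x ∈ U, P x := by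
  obtain ⟨G, hG, h⟩ := hP
  obtain ⟨x, hx, hx'⟩ := exists_ne_zero_of_open hU hne hG
  exact ⟨x, hx, h x hx'⟩

theorem open_of_ev {P : (Fin 3 → ℂ) → Prop} (hP : ∀ᶠ x in gen, P x) :
    ∃ U : Set (Fin 3 → ℂ), IsOpen U ∧ U.Nonempty ∧ ∀ x ∈ U, P x := by
  obtain ⟨G, hG, h⟩ := hP
  refine ⟨{x | eval x G ≠ 0}, isOpen_ne_fun (MvPolynomial.continuous_eval G) continuous_const,
    ?_, fun x hx => h x hx⟩
  obtain ⟨x, -, hx⟩ := exists_ne_zero_of_open isOpen_univ Set.univ_nonempty hG
  exact ⟨x, hx⟩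

theorem alg_ne_zero {q : A3} (hq : q ≠ 0) : algebraMap A3 K3 q ≠ 0 :=
  fun h => hq (IsFractionRing.injective A3 K3 (by rw [h, map_zero]))

/-- The function `f` generically represents the rational function `g`. -/
def Rep (g : K3) (f : (Fin 3 → ℂ) → ℂ) : Prop :=
  ∃ p q : A3, q ≠ 0 ∧ g = algebraMap A3 K3 p / algebraMap A3 K3 q ∧
    ∀ᶠ x in gen, f x = eval x p / eval x q

theorem Rep.frac (p : A3) {q : A3} (hq : q ≠ 0) :
    Rep (algebraMap A3 K3 p / algebraMap A3 K3 q) (fun x => eval x p / eval x q) :=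
  ⟨p, q, hq, rfl, Eventually.of_forall fun _ => rfl⟩

theorem Rep.poly (p : A3) : Rep (algebraMap A3 K3 p) (fun x => eval x p) :=
  ⟨p, 1, one_ne_zero, by simp, Eventually.of_forall fun _ => by simp⟩

theorem Rep.const (c : ℂ) : Rep (algebraMap ℂ K3 c) (fun _ => c) := by
  have := Rep.poly (C c)
  simpa [IsScalarTower.algebraMap_apply ℂ A3 K3] using this

theorem Rep.congr {g : K3} {f f' : (Fin 3 → ℂ) → ℂ} (h : Rep g f)
    (e : ∀ᶠ x in gen, f' x = f x) : Rep g f' := by
  obtain ⟨p, q, hq, hg, hf⟩ := h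
  exact ⟨p, q, hq, hg, by filter_upwards [e, hf] with x h1 h2 using h1.trans h2⟩

theorem Rep.add {g g' : K3} {f f' : (Fin 3 → ℂ) → ℂ} (h : Rep g f) (h' : Rep g' f') :
    Rep (g + g') (fun x => f x + f' x) := by
  obtain ⟨p, q, hq, rfl, hf⟩ := h
  obtain ⟨p', q', hq', rfl, hf'⟩ := h'
  refine ⟨p * q' + q * p', q * q', mul_ne_zero hq hq', ?_, ?_⟩
  · rw [div_add_div _ _ (alg_ne_zero hq) (alg_ne_zero hq')]
    simp
  · filter_upwards [hf, hf', ev_ne_zero hq, ev_ne_zero hq'] with x h1 h2 h3 h4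
    rw [h1, h2, div_add_div _ _ h3 h4]
    simp

theorem Rep.mul {g g' : K3} {f f' : (Fin 3 → ℂ) → ℂ} (h : Rep g f) (h' : Rep g' f') :
    Rep (g * g') (fun x => f x * f' x) := by
  obtain ⟨p, q, hq, rfl, hf⟩ := h
  obtain ⟨p', q', hq', rfl, hf'⟩ := h'
  refine ⟨p * p', q * q', mul_ne_zero hq hq', ?_, ?_⟩
  · rw [div_mul_div_comm]
    simp
  · filter_upwards [hf, hf'] with x h1 h2
    rw [h1, h2, div_mul_div_comm]
    simp

theorem Rep.inv {g : K3} {f : (Fin 3 → ℂ) → ℂ} (h : Rep g f) :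
    Rep g⁻¹ (fun x => (f x)⁻¹) := by
  obtain ⟨p, q, hq, rfl, hf⟩ := h
  by_cases hp : p = 0
  · subst hp
    refine ⟨0, 1, one_ne_zero, by simp, ?_⟩
    filter_upwards [hf] with x h1
    simp [h1]
  · refine ⟨q, p, hp, by rw [inv_div], ?_⟩
    filter_upwards [hf] with x h1
    rw [h1, inv_div]

theorem Rep.div {g g' : K3} {f f' : (Fin 3 → ℂ) → ℂ} (h : Rep g f) (h' : Rep g' f') :
    Rep (g / g') (fun x => f x / f' x) := by
  simpa only [div_eq_mul_inv] using h.mul h'.inv

theorem Rep.pow {g : K3} {f : (Fin 3 → ℂ) → ℂ} (h : Rep g f) (n : ℕ) :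
    Rep (g ^ n) (fun x => f x ^ n) := by
  induction n with
  | zero => simpa using Rep.const 1
  | succ n ih => simpa only [pow_succ] using ih.mul h

theorem Rep.zpow {g : K3} {f : (Fin 3 → ℂ) → ℂ} (h : Rep g f) (n : ℤ) :
    Rep (g ^ n) (fun x => f x ^ n) := by
  cases n with
  | ofNat n => simpa using h.pow n
  | negSucc n => simpa only [zpow_negSucc] using (h.pow (n + 1)).inv

theorem Rep.aeval {g : Fin 3 → K3} {f : (Fin 3 → ℂ) → (Fin 3 → ℂ)}
    (h : ∀ i, Rep (g i) (fun x => f x i)) (R : A3) :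
    Rep (aeval g R) (fun x => eval (f x) R) := by
  induction R using MvPolynomial.induction_on with
  | C c => simpa using Rep.const c
  | add p q hp hq => simpa only [map_add] using hp.add hq
  | mul_X p i hp => simpa only [map_mul, aeval_X, eval_X] using hp.mul (h i)

theorem Rep.ne_zero {g : K3} {f : (Fin 3 → ℂ) → ℂ} (h : Rep g f) (hg : g ≠ 0) :
    ∀ᶠ x in gen, f x ≠ 0 := by
  obtain ⟨p, q, hq, rfl, hf⟩ := h
  have hp : p ≠ 0 := by
    rintro rfl
    simp at hg
  filter_upwards [hf, ev_ne_zero hp, ev_ne_zero hq] with x h1 h2 h3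
  rw [h1]
  exact div_ne_zero h2 h3

theorem Rep.eq_zero {f : (Fin 3 → ℂ) → ℂ} (h : Rep 0 f) : ∀ᶠ x in gen, f x = 0 := by
  obtain ⟨p, q, hq, h0, hf⟩ := h
  have hp : p = 0 := by
    by_contra hp
    exact div_ne_zero (alg_ne_zero hp) (alg_ne_zero hq) h0.symm
  filter_upwards [hf] with x h1
  simp [h1, hp]

theorem Rep.sub {g g' : K3} {f f' : (Fin 3 → ℂ) → ℂ} (h : Rep g f) (h' : Rep g' f') :
    Rep (g - g') (fun x => f x - f' x) := by
  have := h.add ((Rep.const (-1)).mul h')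
  simpa [sub_eq_add_neg] using this

theorem Rep.unique {g : K3} {f f' : (Fin 3 → ℂ) → ℂ} (h : Rep g f) (h' : Rep g f') :
    ∀ᶠ x in gen, f x = f' x := by
  have := h.sub h'
  rw [sub_self] at this
  filter_upwards [this.eq_zero] with x hx using sub_eq_zero.mp hx

theorem Rep.eq_of_open {g g' : K3} {f f' : (Fin 3 → ℂ) → ℂ} (h : Rep g f) (h' : Rep g' f')
    {U : Set (Fin 3 → ℂ)} (hU : IsOpen U) (hne : U.Nonempty) (e : ∀ x ∈ U, f x = f' x) :
    g = g' := by
  by_contra hcon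
  obtain ⟨x, hx, hx'⟩ := exists_of_open hU hne ((h.sub h').ne_zero (sub_ne_zero.mpr hcon))
  exact hx' (sub_eq_zero.mpr (e x hx))

/-- The generic point. -/
noncomputable def xg (i : Fin 3) : K3 := algebraMap A3 K3 (X i)

theorem rep_xg (i : Fin 3) : Rep (xg i) (fun x => x i) := by
  simpa [xg] using Rep.poly (X i)

theorem aeval_xg (p : A3) : aeval xg p = algebraMap A3 K3 p := by
  have : (aeval xg : A3 →ₐ[ℂ] K3) = IsScalarTower.toAlgHom ℂ A3 K3 := by
    ext i
    simp [xg]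
  rw [this]
  rfl

/-- Substitution of an algebraically independent triple. -/
noncomputable def subst (g : Fin 3 → K3) (hg : Function.Injective (aeval g : A3 →ₐ[ℂ] K3)) :
    K3 →ₐ[ℂ] K3 :=
  IsFractionRing.liftAlgHom hg

theorem subst_alg (g : Fin 3 → K3) (hg : Function.Injective (aeval g : A3 →ₐ[ℂ] K3)) (p : A3) :
    subst g hg (algebraMap A3 K3 p) = aeval g p := by
  simp [subst]

theorem subst_xg (g : Fin 3 → K3) (hg : Function.Injective (aeval g : A3 →ₐ[ℂ] K3)) (i : Fin 3) :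
    subst g hg (xg i) = g i := by
  simp [xg, subst_alg]

theorem hom_alg (φ : K3 →ₐ[ℂ] K3) (p : A3) :
    φ (algebraMap A3 K3 p) = aeval (fun i => φ (xg i)) p := by
  rw [← aeval_xg, ← AlgHom.comp_apply, comp_aeval]

theorem hom_ext {φ ψ : K3 →ₐ[ℂ] K3} (h : ∀ i, φ (xg i) = ψ (xg i)) : φ = ψ := by
  refine AlgHom.ext fun g => ?_
  obtain ⟨p, q, -, rfl⟩ := IsFractionRing.div_surjective (A := A3) g
  rw [map_div₀, map_div₀, hom_alg, hom_alg, hom_alg ψ, hom_alg ψ, funext h]

theorem adjoin_xg : IntermediateField.adjoin ℂ (Set.range xg) = ⊤ := by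
  rw [eq_top_iff]
  intro g _
  obtain ⟨p, q, -, rfl⟩ := IsFractionRing.div_surjective (A := A3) g
  have : ∀ p : A3, algebraMap A3 K3 p ∈ IntermediateField.adjoin ℂ (Set.range xg) := by
    intro p
    rw [← aeval_xg]
    apply IntermediateField.algebra_adjoin_le_adjoin
    rw [Algebra.adjoin_range_eq_range_aeval]
    exact ⟨p, rfl⟩
  exact div_mem (this p) (this q)

theorem trdeg_K3 : Algebra.trdeg ℂ K3 = 3 := by
  have : Algebra.IsAlgebraic A3 K3 := IsLocalization.isAlgebraic K3 (nonZeroDivisors A3)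
  rw [← trdeg_add_eq ℂ A3 (A := K3), trdeg_eq_zero (R := A3) (A := K3), add_zero,
    MvPolynomial.trdeg_of_isDomain]
  simp

theorem common_denom (g : Fin 3 → K3) : ∃ (M : Fin 3 → A3) (F : A3), F ≠ 0 ∧
    ∀ i, g i = algebraMap A3 K3 (M i) / algebraMap A3 K3 F := by
  obtain ⟨b, hb⟩ := IsLocalization.exist_integer_multiples_of_finite (nonZeroDivisors A3) g
  have hb0 : (b : A3) ≠ 0 := nonZeroDivisors.ne_zero b.2
  choose M hM using hb
  refine ⟨M, b, hb0, fun i => ?_⟩
  rw [eq_div_iff (alg_ne_zero hb0), hM i, Algebra.smul_def, mul_comm]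

end Pool.Agent.Lib.MP_bb5dbd_ag
end

-- part Pool.Agent.Lib.MP_bb5dbd_ag.Luroth
section

set_option autoImplicit false

namespace Pool.Agent.Lib.MP_bb5dbd_ag

open Polynomial

/-- Generalised Luroth theorem, by specialisation to a rational curve. -/
theorem luroth_general {k A K : Type*} [Field k] [CommRing A] [IsDomain A] [IsIntegrallyClosed A]
    [Algebra k A] [Field K] [Algebra A K] [IsFractionRing A K] [Algebra k K]
    [IsScalarTower k A K] (F : IntermediateField k K) (p q : A) (π : A →ₐ[k] k[X])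
    (hq : π q ≠ 0)
    (htr : Transcendental k (algebraMap k[X] (RatFunc k) (π p) / algebraMap k[X] (RatFunc k) (π q)))
    (halg : ∀ g ∈ F,
      IsAlgebraic (IntermediateField.adjoin k {algebraMap A K p / algebraMap A K q}) g) :
    ∃ b ∈ F, F = IntermediateField.adjoin k {b} := by
  classical
  set f := algebraMap A K p / algebraMap A K q with hfdef
  let S : Submonoid A := (nonZeroDivisors k[X]).comap π
  have hSmem : ∀ a : A, a ∈ S ↔ π a ≠ 0 := fun a => by
    simp only [S, Submonoid.mem_comap, mem_nonZeroDivisors_iff_ne_zero]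
  have hS : S ≤ nonZeroDivisors A := fun a ha => by
    rw [mem_nonZeroDivisors_iff_ne_zero]
    rintro rfl
    exact (hSmem 0).mp ha (map_zero π)
  let R : Subalgebra A K := Localization.subalgebra.ofField K S hS
  have hR : ∀ x : K, x ∈ R ↔ ∃ (a s : A) (_ : s ∈ S), x = algebraMap A K a * (algebraMap A K s)⁻¹ :=
    fun x => Iff.rfl
  have : IsIntegrallyClosed R := isIntegrallyClosed_of_isLocalization R S hS
  let g0 : A →ₐ[k] RatFunc k := (IsScalarTower.toAlgHom k k[X] (RatFunc k)).comp π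
  have hg0 : ∀ a : A, g0 a = algebraMap k[X] (RatFunc k) (π a) := fun a => rfl
  have hunit : ∀ y : S, IsUnit (g0 y) := fun y => by
    rw [isUnit_iff_ne_zero, hg0]
    exact RatFunc.algebraMap_ne_zero ((hSmem y).mp y.2)
  let ψ : R →ₐ[k] RatFunc k := IsLocalization.liftAlgHom (M := S) (f := g0) hunit
  have hψ : ∀ a : A, ψ (algebraMap A R a) = g0 a := fun a => by
    simp [ψ]
  -- elements with nonzero image are units
  have hinv : ∀ e : R, ψ e ≠ 0 → (e : K)⁻¹ ∈ R := by
    intro e he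
    obtain ⟨a, s, hs, hes⟩ := (hR e).mp e.2
    have hs0 : algebraMap A K s ≠ 0 :=
      IsFractionRing.to_map_ne_zero_of_mem_nonZeroDivisors (hS hs)
    have h1 : e * algebraMap A R s = algebraMap A R a := by
      apply Subtype.ext
      change (e : K) * algebraMap A K s = algebraMap A K a
      rw [hes]; field_simp
    have h2 := congrArg ψ h1
    rw [map_mul, hψ, hψ] at h2
    have ha : a ∈ S := by
      rw [hSmem]
      intro h0
      rw [hg0 a, h0, map_zero] at h2
      exact mul_ne_zero he (hunit ⟨s, hs⟩).ne_zero h2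
    refine (hR _).mpr ⟨s, a, ha, ?_⟩
    rw [hes, mul_inv, inv_inv, mul_comm]
  have hqS : q ∈ S := (hSmem q).mpr hq
  have hq0 : algebraMap A K q ≠ 0 :=
    IsFractionRing.to_map_ne_zero_of_mem_nonZeroDivisors (hS hqS)
  have hfR : f ∈ R := (hR f).mpr ⟨p, q, hqS, div_eq_mul_inv _ _⟩
  let fR : R := ⟨f, hfR⟩
  have hψf : ψ fR = algebraMap k[X] (RatFunc k) (π p) / algebraMap k[X] (RatFunc k) (π q) := by
    have h1 : fR * algebraMap A R q = algebraMap A R p := by
      apply Subtype.ext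
      change f * algebraMap A K q = algebraMap A K p
      rw [hfdef]; field_simp
    have h2 := congrArg ψ h1
    rw [map_mul, hψ, hψ] at h2
    rw [eq_div_iff (RatFunc.algebraMap_ne_zero hq)]
    exact h2
  let ι : R →ₐ[k] K := (R.val).restrictScalars k
  have haev : ∀ r : k[X], ((aeval fR r : R) : K) = aeval f r := fun r => by
    have := (aeval_algHom_apply ι fR r).symm
    exact this
  have hsub : ∀ g ∈ IntermediateField.adjoin k {f}, g ∈ R := by
    intro g hg
    obtain ⟨r, s, rfl⟩ := (IntermediateField.mem_adjoin_simple_iff k g).mp hg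
    by_cases hs : s = 0
    · rw [hs, map_zero, div_zero]; exact R.zero_mem
    have h1 : ψ (aeval fR s) ≠ 0 := by
      rw [← aeval_algHom_apply, hψf]
      intro h0
      exact htr ⟨s, hs, h0⟩
    have h2 := hinv _ h1
    rw [haev] at h2
    rw [div_eq_mul_inv, ← haev r]
    exact R.mul_mem (aeval fR r).2 h2
  have hFR : ∀ g ∈ F, g ∈ R := by
    intro g hg
    have hi := (halg g hg).isIntegral
    let j : IntermediateField.adjoin k {f} →+* R :=
      RingHom.codRestrict (IntermediateField.adjoin k {f}).subtype R (fun x => hsub x x.2)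
    have hi2 : IsIntegral R g := by
      obtain ⟨P, hP, hP0⟩ := hi
      refine ⟨P.map j, hP.map j, ?_⟩
      rw [eval₂_map]
      exact hP0
    obtain ⟨y, hy⟩ := IsIntegrallyClosed.isIntegral_iff.mp hi2
    rw [← hy]
    exact y.2
  let j : F →ₐ[k] R := AlgHom.codRestrict F.val (R.restrictScalars k) (fun x => hFR x x.2)
  let χ : F →ₐ[k] RatFunc k := ψ.comp j
  obtain ⟨b, hb⟩ : RatFunc.Luroth.generator χ.fieldRange ∈ χ.fieldRange :=
    RatFunc.Luroth.generator_mem
  refine ⟨b, b.2, le_antisymm ?_ ?_⟩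
  · intro g hg
    have h1 : χ ⟨g, hg⟩ ∈ χ.fieldRange := ⟨⟨g, hg⟩, rfl⟩
    rw [RatFunc.Luroth.eq_adjoin_generator (E := χ.fieldRange)] at h1
    obtain ⟨r, s, hrs⟩ := (IntermediateField.mem_adjoin_simple_iff k _).mp h1
    have hb' : χ b = RatFunc.Luroth.generator χ.fieldRange := hb
    rw [← hb', aeval_algHom_apply, aeval_algHom_apply, ← map_div₀] at hrs
    have h2 := χ.toRingHom.injective hrs
    have h3 := congrArg F.val h2
    rw [map_div₀, ← aeval_algHom_apply, ← aeval_algHom_apply] at h3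
    exact (IntermediateField.mem_adjoin_simple_iff k _).mpr ⟨r, s, h3⟩
  · rw [IntermediateField.adjoin_simple_le_iff]
    exact b.2

end Pool.Agent.Lib.MP_bb5dbd_ag
end

-- part Pool.Agent.Lib.MP_bb5dbd_ag.Flow
section

set_option autoImplicit false

namespace Pool.Agent.Lib.MP_bb5dbd_ag

open MvPolynomial Filter IntermediateField

/-- The boundary condition forces the map to be dominant. -/
theorem dominant (P : Fin 3 → A3) (Q : A3) (Φ : (Fin 3 → ℂ) → (Fin 3 → ℂ)) (hQ : Q ≠ 0)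
    (hΦ : ∀ p : Fin 3 → ℂ, Φ p = fun i => eval p (P i) / eval p Q)
    (U : Set (Fin 3 → ℂ)) (hU : IsOpen U) (hne : U.Nonempty)
    (hlim : ∀ x ∈ U, Tendsto (fun z : ℂ => z⁻¹ • Φ (z • x)) (nhdsWithin (0 : ℂ) {0}ᶜ) (nhds x)) :
    Function.Injective
      (aeval (fun i => algebraMap A3 K3 (P i) / algebraMap A3 K3 Q) : A3 →ₐ[ℂ] K3) := by
  classical
  rw [injective_iff_map_eq_zero]
  intro R hR
  by_contra hR0
  have h1 : Rep (aeval (fun i => algebraMap A3 K3 (P i) / algebraMap A3 K3 Q) R)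
      (fun x => eval (Φ x) R) :=
    Rep.aeval (fun i => by simpa only [hΦ] using Rep.frac (P i) hQ) R
  rw [hR] at h1
  obtain ⟨G, hG, hGR⟩ := h1.eq_zero
  obtain ⟨m₀, hm₀, hmin⟩ := R.support.exists_min_image (fun m => ∑ i, m i)
    (support_nonempty.mpr hR0)
  set k := ∑ i, m₀ i with hk
  let R₀ : A3 := ∑ m ∈ R.support with ∑ i, m i = k, monomial m (coeff m R)
  have hR₀ : R₀ ≠ 0 := by
    intro h0
    have : coeff m₀ R₀ = coeff m₀ R := by
      simp only [R₀, coeff_sum, coeff_monomial]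
      rw [Finset.sum_ite_eq']
      simp [hm₀, hk]
    rw [h0, coeff_zero] at this
    exact mem_support_iff.mp hm₀ this.symm
  let S : ℂ × (Fin 3 → ℂ) → ℂ := fun q =>
    ∑ m ∈ R.support, coeff m R * q.1 ^ (∑ i, m i - k) * ∏ i, q.2 i ^ m i
  have hScont : Continuous S := by
    simp only [S]
    fun_prop
  have hS0 : ∀ y, S (0, y) = eval y R₀ := by
    intro y
    simp only [S, R₀, map_sum, Finset.sum_filter]
    refine Finset.sum_congr rfl fun m hm => ?_
    have := hmin m hm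
    by_cases h : ∑ i, m i = k
    · simp [h, eval_monomial, Finsupp.prod_fintype]
    · have h2 : ∑ i, m i - k ≠ 0 := by omega
      simp [h, h2]
  have hS1 : ∀ (z : ℂ) (y : Fin 3 → ℂ), eval (z • y) R = z ^ k * S (z, y) := by
    intro z y
    simp only [S, eval_eq', Finset.mul_sum]
    refine Finset.sum_congr rfl fun m hm => ?_
    have := hmin m hm
    have h2 : z ^ (∑ i, m i) = z ^ k * z ^ (∑ i, m i - k) := by
      rw [← pow_add]; congr 1; omega
    simp only [Pi.smul_apply, smul_eq_mul, mul_pow, Finset.prod_mul_distrib,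
      Finset.prod_pow_eq_pow_sum, h2]
    ring
  obtain ⟨x, hxU, hxG, hxR⟩ : ∃ x ∈ U, eval x G ≠ 0 ∧ eval x R₀ ≠ 0 :=
    exists_of_open hU hne ((ev_ne_zero hG).and (ev_ne_zero hR₀))
  -- the polynomial `z ↦ G (z x)` is nonzero
  let Gx : Polynomial ℂ := aeval (fun i => Polynomial.C (x i) * Polynomial.X) G
  have hGx : ∀ z : ℂ, Gx.eval z = eval (z • x) G := by
    intro z
    have : ((Polynomial.aeval z : Polynomial ℂ →ₐ[ℂ] ℂ).comp
        (aeval (fun i => Polynomial.C (x i) * Polynomial.X))) = aeval (z • x) := by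
      ext i
      simp only [AlgHom.comp_apply, aeval_X, map_mul, Polynomial.aeval_C, Polynomial.aeval_X,
        Pi.smul_apply, smul_eq_mul, Algebra.algebraMap_self, RingHom.id_apply]
      ring
    have h2 := congrArg (fun φ : A3 →ₐ[ℂ] ℂ => φ G) this
    simpa [Gx, Polynomial.coe_aeval_eq_eval, aeval_eq_eval] using h2
  have hGx0 : Gx ≠ 0 := by
    intro h0
    have := hGx 1
    rw [h0, one_smul] at this
    exact hxG (by simpa using this.symm)
  have hev : ∀ᶠ z in nhdsWithin (0 : ℂ) {0}ᶜ, Gx.eval z ≠ 0 := by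
    have hfin : {z : ℂ | Gx.IsRoot z}.Finite := Polynomial.finite_setOfPred_isRoot hGx0
    have := nhdsNE_le_cofinite (0 : ℂ) hfin.compl_mem_cofinite
    exact this
  have hlim2 : Tendsto (fun z : ℂ => S (z, z⁻¹ • Φ (z • x))) (nhdsWithin (0 : ℂ) {0}ᶜ)
      (nhds (S (0, x))) :=
    (hScont.tendsto _).comp ((tendsto_nhdsWithin_of_tendsto_nhds tendsto_id).prodMk_nhds
      (hlim x hxU))
  have hzero : ∀ᶠ z in nhdsWithin (0 : ℂ) {0}ᶜ, S (z, z⁻¹ • Φ (z • x)) = 0 := by
    filter_upwards [hev, self_mem_nhdsWithin] with z h1 h2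
    have hz : z ≠ 0 := h2
    rw [hGx] at h1
    have h3 : eval (Φ (z • x)) R = 0 := hGR _ h1
    have h4 := hS1 z (z⁻¹ • Φ (z • x))
    rw [smul_inv_smul₀ hz, h3] at h4
    exact (mul_eq_zero.mp h4.symm).resolve_left (pow_ne_zero _ hz)
  have := tendsto_nhds_unique hlim2 (tendsto_const_nhds.congr' (hzero.mono fun z h => h.symm))
  rw [hS0] at this
  exact hxR this

/-- Luroth's theorem for subfields of transcendence degree one. -/
theorem luroth_K3 (F : IntermediateField ℂ K3) (f : K3) (hf : Transcendental ℂ f)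
    (halg : ∀ g ∈ F, IsAlgebraic ℂ⟮f⟯ g) : ∃ b ∈ F, F = ℂ⟮b⟯ := by
  obtain ⟨p, q, hq, rfl⟩ := IsFractionRing.div_surjective (A := A3) f
  have hq0 : q ≠ 0 := nonZeroDivisors.ne_zero hq
  obtain ⟨y, -, hy⟩ := exists_ne_zero_of_open isOpen_univ Set.univ_nonempty hq0
  set κ := eval y p / eval y q with hκ
  have hpκ : p - C κ * q ≠ 0 := by
    intro h0
    apply hf
    rw [sub_eq_zero.mp h0, map_mul, mul_div_assoc, div_self (alg_ne_zero hq0), mul_one]
    exact isAlgebraic_algebraMap κ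
  obtain ⟨y', -, hy'⟩ := exists_ne_zero_of_open isOpen_univ Set.univ_nonempty
    (mul_ne_zero hpκ hq0)
  rw [map_mul] at hy'
  let π : A3 →ₐ[ℂ] Polynomial ℂ :=
    aeval fun i => Polynomial.C (y i) + Polynomial.X * Polynomial.C (y' i - y i)
  have hπ : ∀ (z : ℂ) (r : A3), (π r).eval z = eval (fun i => y i + z * (y' i - y i)) r := by
    intro z r
    have : ((Polynomial.aeval z : Polynomial ℂ →ₐ[ℂ] ℂ).comp π) =
        aeval (fun i => y i + z * (y' i - y i)) := by
      ext i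
      simp [π]
    have h2 := congrArg (fun φ : A3 →ₐ[ℂ] ℂ => φ r) this
    simpa [Polynomial.coe_aeval_eq_eval, aeval_eq_eval] using h2
  have hπ0 : ∀ r : A3, (π r).eval 0 = eval y r := fun r => by simp [hπ]
  have hπ1 : ∀ r : A3, (π r).eval 1 = eval y' r := fun r => by simp [hπ]
  have hπq : π q ≠ 0 := by
    intro h0
    have := hπ0 q
    rw [h0] at this
    exact hy (by simpa using this.symm)
  refine luroth_general F p q π hπq ?_ halg
  apply RatFunc.transcendental_of_ne_C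
  rintro ⟨c, hc⟩
  rw [div_eq_iff (RatFunc.algebraMap_ne_zero hπq), ← RatFunc.algebraMap_C, ← map_mul] at hc
  have h1 := RatFunc.algebraMap_injective ℂ hc
  have h2 := congrArg (Polynomial.eval 0) h1
  have h3 := congrArg (Polynomial.eval 1) h1
  rw [Polynomial.eval_mul, Polynomial.eval_C, hπ0, hπ0] at h2
  rw [Polynomial.eval_mul, Polynomial.eval_C, hπ1, hπ1] at h3
  have h4 : κ = c := by rw [hκ, h2]; field_simp
  apply left_ne_zero_of_mul hy'
  rw [map_sub, map_mul, eval_C, h3, h4, sub_self]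

/-- Scaling of polynomials. -/
noncomputable def sc (l : ℂ) : A3 →ₐ[ℂ] A3 := aeval fun i => C l * X i

theorem eval_sc (l : ℂ) (x : Fin 3 → ℂ) (p : A3) : eval x (sc l p) = eval (l • x) p := by
  have : (aeval x : A3 →ₐ[ℂ] ℂ).comp (sc l) = aeval (l • x) := by
    ext i
    simp [sc]
  have h2 := congrArg (fun φ : A3 →ₐ[ℂ] ℂ => φ p) this
  simpa [aeval_eq_eval] using h2

theorem sc_ne_zero {l : ℂ} (hl : l ≠ 0) {p : A3} (hp : p ≠ 0) : sc l p ≠ 0 := by
  obtain ⟨y, -, hy⟩ := exists_ne_zero_of_open isOpen_univ Set.univ_nonempty hp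
  intro h0
  have := eval_sc l (l⁻¹ • y) p
  rw [h0, smul_inv_smul₀ hl, map_zero] at this
  exact hy this.symm

theorem aeval_scale (l : ℂ) (p : A3) :
    aeval (fun i => algebraMap ℂ K3 l * xg i) p = algebraMap A3 K3 (sc l p) := by
  have : (aeval (fun i => algebraMap ℂ K3 l * xg i) : A3 →ₐ[ℂ] K3) =
      (IsScalarTower.toAlgHom ℂ A3 K3).comp (sc l) := by
    ext i
    simp [sc, xg, IsScalarTower.algebraMap_apply ℂ A3 K3]
  rw [this]
  rfl

theorem scale_inj {l : ℂ} (hl : l ≠ 0) :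
    Function.Injective (aeval (fun i => algebraMap ℂ K3 l * xg i) : A3 →ₐ[ℂ] K3) := by
  rw [injective_iff_map_eq_zero]
  intro p hp
  by_contra h0
  rw [aeval_scale] at hp
  exact alg_ne_zero (sc_ne_zero hl h0) hp

open Classical in
/-- Scaling of rational functions. -/
noncomputable def tau (l : ℂ) : K3 →ₐ[ℂ] K3 :=
  if h : l = 0 then AlgHom.id ℂ K3 else subst _ (scale_inj h)

theorem tau_xg {l : ℂ} (hl : l ≠ 0) (i : Fin 3) : tau l (xg i) = algebraMap ℂ K3 l * xg i := by
  rw [tau, dif_neg hl, subst_xg]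

theorem tau_alg {l : ℂ} (hl : l ≠ 0) (p : A3) :
    tau l (algebraMap A3 K3 p) = algebraMap A3 K3 (sc l p) := by
  rw [tau, dif_neg hl, subst_alg, aeval_scale]

theorem tau_tau {l m : ℂ} (hl : l ≠ 0) (hm : m ≠ 0) (y : K3) :
    tau l (tau m y) = tau (l * m) y := by
  have : (tau l).comp (tau m) = tau (l * m) := hom_ext fun i => by
    rw [AlgHom.comp_apply, tau_xg hm, map_mul, AlgHom.commutes, tau_xg hl,
      tau_xg (mul_ne_zero hl hm), map_mul]
    ring
  rw [← this]
  rfl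

theorem tau_one (y : K3) : tau 1 y = y := by
  have : tau 1 = AlgHom.id ℂ K3 := hom_ext fun i => by
    rw [tau_xg one_ne_zero]
    simp
  rw [this]
  rfl

theorem rep_hom_frac (φ : K3 →ₐ[ℂ] K3) {f : (Fin 3 → ℂ) → (Fin 3 → ℂ)}
    (h : ∀ i, Rep (φ (xg i)) (fun x => f x i)) (p q : A3) :
    Rep (φ (algebraMap A3 K3 p / algebraMap A3 K3 q)) (fun x => eval (f x) p / eval (f x) q) := by
  rw [map_div₀, hom_alg, hom_alg]
  exact (Rep.aeval h p).div (Rep.aeval h q)

theorem ev_hom_ne_zero (φ : K3 →ₐ[ℂ] K3) {f : (Fin 3 → ℂ) → (Fin 3 → ℂ)}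
    (h : ∀ i, Rep (φ (xg i)) (fun x => f x i)) {q : A3} (hq : q ≠ 0) :
    ∀ᶠ x in gen, eval (f x) q ≠ 0 := by
  refine (Rep.aeval h q).ne_zero ?_
  rw [← hom_alg]
  exact (_root_.map_ne_zero φ).mpr (alg_ne_zero hq)

end Pool.Agent.Lib.MP_bb5dbd_ag
end

-- part Pool.Agent.Lib.MP_bb5dbd_ag.Poly
section

set_option autoImplicit false

namespace Pool.Agent.Lib.MP_bb5dbd_ag

open Polynomial

/-- Uniqueness of reduced fractions up to a constant. -/
theorem reduced_unique {K : Type*} [Field K] {A B A' B' : K[X]} (h : IsCoprime A B)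
    (h' : IsCoprime A' B') (hB : B ≠ 0) (e : A * B' = A' * B) :
    ∃ κ : K, A' = C κ * A ∧ B' = C κ * B := by
  have h1 : B ∣ B' := h.symm.dvd_of_dvd_mul_left ⟨A', by rw [e]; ring⟩
  have h2 : B' ∣ B := h'.symm.dvd_of_dvd_mul_left ⟨A, by rw [← e]; ring⟩
  obtain ⟨u, hu⟩ := associated_of_dvd_dvd h1 h2
  obtain ⟨κ, -, hκ⟩ := Polynomial.isUnit_iff.mp u.isUnit
  refine ⟨κ, ?_, by rw [← hu, ← hκ]; ring⟩
  apply mul_right_cancel₀ hB
  rw [← e, ← hu, ← hκ]; ring

/-- Existence of reduced fractions. -/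
theorem exists_reduced {K : Type*} [Field K] (A B : K[X]) (hB : B ≠ 0) :
    ∃ A₀ B₀ : K[X], IsCoprime A₀ B₀ ∧ B₀.Monic ∧ ∃ g : K[X], A = g * A₀ ∧ B = g * B₀ := by
  classical
  have hg : gcd A B ≠ 0 := gcd_ne_zero_of_right hB
  have hc : IsCoprime (A / gcd A B) (B / gcd A B) := isCoprime_div_gcd_div_gcd hB
  have hA : A = gcd A B * (A / gcd A B) :=
    (EuclideanDomain.mul_div_cancel' hg (gcd_dvd_left A B)).symm
  have hB' : B = gcd A B * (B / gcd A B) :=
    (EuclideanDomain.mul_div_cancel' hg (gcd_dvd_right A B)).symm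
  have hB0 : B / gcd A B ≠ 0 := by
    intro h; rw [h, mul_zero] at hB'; exact hB hB'
  set c := (B / gcd A B).leadingCoeff with hc'
  have hc0 : c ≠ 0 := leadingCoeff_ne_zero.mpr hB0
  refine ⟨(A / gcd A B) * C c⁻¹, (B / gcd A B) * C c⁻¹, ?_, monic_mul_leadingCoeff_inv hB0,
    gcd A B * C c, ?_, ?_⟩
  · have hu : IsUnit (C c⁻¹ : K[X]) := isUnit_C.mpr (inv_ne_zero hc0).isUnit
    exact (isCoprime_mul_unit_right hu _ _).mpr hc
  · have : (C c : K[X]) * C c⁻¹ = 1 := by rw [← C_mul, mul_inv_cancel₀ hc0, C_1]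
    calc A = gcd A B * (A / gcd A B) * (C c * C c⁻¹) := by rw [this, mul_one, ← hA]
      _ = _ := by ring
  · have : (C c : K[X]) * C c⁻¹ = 1 := by rw [← C_mul, mul_inv_cancel₀ hc0, C_1]
    calc B = gcd A B * (B / gcd A B) * (C c * C c⁻¹) := by rw [this, mul_one, ← hB']
      _ = _ := by ring

/-- An element of `E(y)` fixed by infinitely many scalings of `y` lies in `E`. -/
theorem mem_of_scaling_invariant {k K : Type*} [Field k] [Field K] [Algebra k K]
    (E : IntermediateField k K) (y g : K) (hy : y ≠ 0)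
    (hg : g ∈ IntermediateField.adjoin E {y}) (S : Set K) (hS : S.Infinite)
    (h : ∀ l ∈ S, ∃ τ : K →+* K, (∀ e ∈ E, τ e = e) ∧ τ y = l * y ∧ τ g = g) : g ∈ E := by
  obtain ⟨r, s, rfl⟩ := (IntermediateField.mem_adjoin_simple_iff E g).mp hg
  by_cases hs : aeval y s = 0
  · rw [hs, div_zero]; exact E.zero_mem
  have hs0 : s ≠ 0 := by rintro rfl; simp at hs
  set r' := r.map (algebraMap E K) with hr'
  set s' := s.map (algebraMap E K) with hs'
  have key : ∀ (τ : K →+* K), (∀ e ∈ E, τ e = e) → ∀ p : E[X],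
      τ (aeval y p) = eval (τ y) (p.map (algebraMap E K)) := by
    intro τ hτ p
    rw [aeval_def, hom_eval₂, eval_map]
    congr 1
    ext e
    exact hτ e e.2
  have hpoly : r'.comp (C y * X) * C (aeval y s) = C (aeval y r) * s'.comp (C y * X) := by
    apply Polynomial.eq_of_infinite_eval_eq
    refine hS.mono fun l hl => ?_
    obtain ⟨τ, h1, h2, h3⟩ := h l hl
    have hs2 : τ (aeval y s) ≠ 0 := (_root_.map_ne_zero τ).mpr hs
    rw [map_div₀, div_eq_div_iff hs2 hs, key τ h1, key τ h1, h2] at h3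
    simp only [Set.mem_ofPred_eq, eval_mul, eval_comp, eval_C, eval_X]
    rw [mul_comm y l]
    exact h3
  have hj := congrArg (fun p => p.coeff s.natDegree) hpoly
  simp only [coeff_mul_C, coeff_C_mul, comp_C_mul_X_coeff, hr', hs', coeff_map] at hj
  have hl : (algebraMap E K) (s.coeff s.natDegree) ≠ 0 :=
    (_root_.map_ne_zero _).mpr (leadingCoeff_ne_zero.mpr hs0)
  have hyp : y ^ s.natDegree ≠ 0 := pow_ne_zero _ hy
  have : aeval y r / aeval y s =
      (algebraMap E K) (r.coeff s.natDegree) / (algebraMap E K) (s.coeff s.natDegree) := by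
    rw [div_eq_div_iff hs hl]
    apply mul_right_cancel₀ hyp
    linear_combination -hj
  rw [this]
  exact E.div_mem (r.coeff _).2 (s.coeff _).2

/-- An element with infinitely many conjugates is transcendental. -/
theorem transcendental_of_infinite_conj {E K : Type*} [Field E] [Field K] [Algebra E K]
    (y : K) (S : Set K) (hS : S.Infinite)
    (h : ∀ v ∈ S, ∃ τ : K →+* K, (∀ e : E, τ (algebraMap E K e) = algebraMap E K e) ∧ τ y = v) :
    Transcendental E y := by
  rintro ⟨p, hp0, hp⟩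
  apply hS
  refine (p.rootSet_finite K).subset fun v hv => ?_
  obtain ⟨τ, h1, h2⟩ := h v hv
  rw [mem_rootSet]
  refine ⟨hp0, ?_⟩
  have := congrArg τ hp
  rw [aeval_def, hom_eval₂, map_zero, h2] at this
  rw [aeval_def, ← this]
  congr 1
  ext e
  exact (h1 e).symm

end Pool.Agent.Lib.MP_bb5dbd_ag
end

-- part Pool.Agent.Lib.MP_bb5dbd_ag.Slice
section

set_option autoImplicit false

namespace Pool.Agent.Lib.MP_bb5dbd_ag

open Polynomial

variable {K : Type*} [Field K] [Algebra ℂ K]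

/-- Equivariance of a polynomial for translations and scalings. -/
def Eqv (σ τ : ℂ → K →ₐ[ℂ] K) (p : K[X]) (e : ℤ) : Prop :=
  (∀ r : ℂ, r ≠ 0 → p.map (σ r : K →+* K) = p.comp (X + C (algebraMap ℂ K r))) ∧
  (∀ l : ℂ, l ≠ 0 → p.map (τ l : K →+* K) =
    C (algebraMap ℂ K l ^ e) * p.comp (C (algebraMap ℂ K l) * X))

/-- Invariant elements that are homogeneous of degree `e`. -/
def HomInv (σ τ : ℂ → K →ₐ[ℂ] K) (e : ℤ) (h : K) : Prop :=
  (∀ r : ℂ, r ≠ 0 → σ r h = h) ∧ (∀ l : ℂ, l ≠ 0 → τ l h = algebraMap ℂ K l ^ e * h)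

/-- A slice: translated by the flow, homogeneous of degree minus one. -/
def IsSlice (σ τ : ℂ → K →ₐ[ℂ] K) (u : K) : Prop :=
  (∀ r : ℂ, r ≠ 0 → σ r u = u + algebraMap ℂ K r) ∧
  (∀ l : ℂ, l ≠ 0 → τ l u = (algebraMap ℂ K l)⁻¹ * u)

variable {σ τ : ℂ → K →ₐ[ℂ] K}

theorem Eqv.derivative {p : K[X]} {e : ℤ} (h : Eqv σ τ p e) :
    Eqv σ τ (derivative p) (e + 1) := by
  refine ⟨fun r hr => ?_, fun l hl => ?_⟩
  · have := congrArg Polynomial.derivative (h.1 r hr)
    rw [derivative_map, derivative_comp] at this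
    simpa using this
  · have := congrArg Polynomial.derivative (h.2 l hl)
    rw [derivative_map, derivative_C_mul, derivative_comp] at this
    have hl' : algebraMap ℂ K l ≠ 0 := (_root_.map_ne_zero _).mpr hl
    rw [this, zpow_add_one₀ hl', C_mul]
    simp only [derivative_mul, derivative_C, zero_mul, derivative_X, mul_one, zero_add]
    ring

theorem exists_slice_of_natDegree (n : ℕ) :
    ∀ (p : K[X]) (e : ℤ), Eqv σ τ p e → p.natDegree = n + 1 → ∃ u, IsSlice σ τ u := by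
  have : CharZero K := charZero_of_injective_algebraMap (algebraMap ℂ K).injective
  induction n with
  | zero =>
    intro p e h hp
    have hp1 : p.coeff 1 ≠ 0 := by
      have : p ≠ 0 := by rintro rfl; simp at hp
      have := leadingCoeff_ne_zero.mpr this
      rwa [leadingCoeff, hp] at this
    have hpe : p = C (p.coeff 1) * X + C (p.coeff 0) :=
      eq_X_add_C_of_natDegree_le_one hp.le
    refine ⟨p.coeff 0 / p.coeff 1, fun r hr => ?_, fun l hl => ?_⟩
    · have h1 := h.1 r hr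
      have h4 : p.comp (X + C (algebraMap ℂ K r)) =
          C (p.coeff 1) * X + C (p.coeff 1 * algebraMap ℂ K r + p.coeff 0) := by
        conv_lhs => rw [hpe]
        simp only [add_comp, mul_comp, C_comp, X_comp, C_add, C_mul]
        ring
      rw [h4] at h1
      have h2 := congrArg (fun q => q.coeff 0) h1
      have h3 := congrArg (fun q => q.coeff 1) h1
      simp only [coeff_map, RingHom.coe_coe, coeff_add, coeff_C_mul, coeff_X_zero, coeff_C_zero,
        coeff_X_one, coeff_C_succ, mul_zero, zero_add, mul_one, add_zero] at h2 h3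
      rw [map_div₀, h2, h3]
      field_simp
      ring
    · have hl' : algebraMap ℂ K l ≠ 0 := (_root_.map_ne_zero _).mpr hl
      have h1 := h.2 l hl
      have h2 := congrArg (fun q => q.coeff 0) h1
      have h3 := congrArg (fun q => q.coeff 1) h1
      simp only [coeff_map, coeff_C_mul, comp_C_mul_X_coeff, RingHom.coe_coe] at h2 h3
      have hz : algebraMap ℂ K l ^ e ≠ 0 := zpow_ne_zero _ hl'
      rw [map_div₀, h2, h3]
      field_simp
  | succ n ih =>
    intro p e h hp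
    refine ih _ _ h.derivative ?_
    rw [natDegree_derivative, hp]
    rfl

theorem Eqv.coeff_shift {p : K[X]} {e : ℤ} (h : Eqv σ τ p e) {u : K} (hu : IsSlice σ τ u)
    (j : ℕ) : HomInv σ τ (e + j) ((p.comp (X - C u)).coeff j) := by
  refine ⟨fun r hr => ?_, fun l hl => ?_⟩
  · have h1 : (p.comp (X - C u)).map (σ r : K →+* K) = p.comp (X - C u) := by
      rw [Polynomial.map_comp, h.1 r hr, comp_assoc]
      congr 1
      simp [hu.1 r hr]
      ring
    have := congrArg (fun q => q.coeff j) h1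
    simpa using this
  · have hl' : algebraMap ℂ K l ≠ 0 := (_root_.map_ne_zero _).mpr hl
    have h1 : (p.comp (X - C u)).map (τ l : K →+* K) =
        C (algebraMap ℂ K l ^ e) * (p.comp (X - C u)).comp (C (algebraMap ℂ K l) * X) := by
      rw [Polynomial.map_comp, h.2 l hl, mul_comp, C_comp, comp_assoc, comp_assoc]
      congr 2
      simp only [Polynomial.map_sub, map_X, map_C, RingHom.coe_coe, hu.2 l hl, mul_comp, C_comp,
        X_comp, sub_comp]
      rw [mul_sub, ← C_mul, ← mul_assoc, mul_inv_cancel₀ hl', one_mul]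
    have := congrArg (fun q => q.coeff j) h1
    simp only [coeff_map, coeff_C_mul, comp_C_mul_X_coeff, RingHom.coe_coe] at this
    rw [this, zpow_add₀ hl', zpow_natCast]
    ring

/-- A homogeneous element whose orbit is rational has an equivariant reduced presentation. -/
theorem exists_eqv (x : K) (hx : ∀ l : ℂ, l ≠ 0 → τ l x = algebraMap ℂ K l * x)
    (hτσ : ∀ l s : ℂ, l ≠ 0 → s ≠ 0 → τ l (σ s x) = σ (l * s) (τ l x))
    (A B : K[X]) (hB : ∀ s : ℂ, s ≠ 0 → B.eval (algebraMap ℂ K s) ≠ 0)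
    (hAB : ∀ s : ℂ, s ≠ 0 → σ s x = A.eval (algebraMap ℂ K s) / B.eval (algebraMap ℂ K s))
    (hc : ∀ r : ℂ, r ≠ 0 → {t : ℂ | t ≠ 0 ∧ r + t ≠ 0 ∧ σ r (σ t x) = σ (r + t) x}.Infinite) :
    ∃ (A₀ B₀ : K[X]) (e e' : ℤ), Eqv σ τ A₀ e ∧ Eqv σ τ B₀ e' ∧
      (∀ s : ℂ, s ≠ 0 → B₀.eval (algebraMap ℂ K s) ≠ 0) ∧
      (∀ s : ℂ, s ≠ 0 → σ s x = A₀.eval (algebraMap ℂ K s) / B₀.eval (algebraMap ℂ K s)) := by
  have hB0 : B ≠ 0 := by
    rintro rfl
    exact hB 1 one_ne_zero (by simp)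
  obtain ⟨A₀, B₀, hcop, hmon, g, rfl, rfl⟩ := exists_reduced A B hB0
  have hB' : ∀ s : ℂ, s ≠ 0 → B₀.eval (algebraMap ℂ K s) ≠ 0 := fun s hs => by
    have := hB s hs
    rw [eval_mul] at this
    exact right_ne_zero_of_mul this
  have hAB' : ∀ s : ℂ, s ≠ 0 →
      σ s x = A₀.eval (algebraMap ℂ K s) / B₀.eval (algebraMap ℂ K s) := fun s hs => by
    have := hB s hs
    rw [eval_mul] at this
    rw [hAB s hs, eval_mul, eval_mul, mul_div_mul_left _ _ (left_ne_zero_of_mul this)]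
  have hinj : Function.Injective (algebraMap ℂ K) := (algebraMap ℂ K).injective
  have hev : ∀ (f : K →ₐ[ℂ] K) (p : K[X]) (t : ℂ),
      f (p.eval (algebraMap ℂ K t)) = (p.map (f : K →+* K)).eval (algebraMap ℂ K t) := by
    intro f p t
    have := (Polynomial.eval_map_apply (f := (f : K →+* K)) (p := p) (algebraMap ℂ K t)).symm
    simpa using this
  -- translations
  have htrans : ∀ r : ℂ, r ≠ 0 →
      A₀.map (σ r : K →+* K) = A₀.comp (X + C (algebraMap ℂ K r)) ∧
      B₀.map (σ r : K →+* K) = B₀.comp (X + C (algebraMap ℂ K r)) := by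
    intro r hr
    have hcop1 : IsCoprime (A₀.map (σ r : K →+* K)) (B₀.map (σ r : K →+* K)) :=
      hcop.map (mapRingHom (σ r : K →+* K))
    have hcop2 : IsCoprime (A₀.comp (X + C (algebraMap ℂ K r)))
        (B₀.comp (X + C (algebraMap ℂ K r))) :=
      hcop.map (compRingHom (X + C (algebraMap ℂ K r)))
    have hm1 : (B₀.map (σ r : K →+* K)).Monic := hmon.map _
    have hm2 : (B₀.comp (X + C (algebraMap ℂ K r))).Monic := hmon.comp_X_add_C _
    have e : A₀.comp (X + C (algebraMap ℂ K r)) * B₀.map (σ r : K →+* K) =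
        A₀.map (σ r : K →+* K) * B₀.comp (X + C (algebraMap ℂ K r)) := by
      apply Polynomial.eq_of_infinite_eval_eq
      refine ((hc r hr).image hinj.injOn).mono ?_
      rintro _ ⟨t, ⟨ht, hrt, h⟩, rfl⟩
      have h1 : σ r (B₀.eval (algebraMap ℂ K t)) ≠ 0 := (_root_.map_ne_zero _).mpr (hB' t ht)
      rw [hAB' t ht, hAB' _ hrt, map_div₀, div_eq_div_iff h1 (hB' _ hrt), hev, hev] at h
      simp only [Set.mem_ofPred_eq, eval_mul, eval_comp, eval_add, eval_X, eval_C]
      rw [← map_add, add_comm t r]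
      exact h.symm
    obtain ⟨κ, h1, h2⟩ := reduced_unique hcop2 hcop1 hm2.ne_zero e
    have hκ : κ = 1 := by
      have := congrArg leadingCoeff h2
      rw [leadingCoeff_mul, leadingCoeff_C, hm1.leadingCoeff, hm2.leadingCoeff, mul_one] at this
      exact this.symm
    rw [hκ, C_1, one_mul] at h1 h2
    exact ⟨h1, h2⟩
  -- scalings
  have hscal : ∀ l : ℂ, l ≠ 0 →
      A₀.map (τ l : K →+* K) = C (algebraMap ℂ K l ^ (1 - (B₀.natDegree : ℤ))) *
        A₀.comp (C (algebraMap ℂ K l) * X) ∧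
      B₀.map (τ l : K →+* K) = C (algebraMap ℂ K l ^ (- (B₀.natDegree : ℤ))) *
        B₀.comp (C (algebraMap ℂ K l) * X) := by
    intro l hl
    have hl' : algebraMap ℂ K l ≠ 0 := (_root_.map_ne_zero _).mpr hl
    have hcop1 : IsCoprime (A₀.map (τ l : K →+* K)) (B₀.map (τ l : K →+* K)) :=
      hcop.map (mapRingHom (τ l : K →+* K))
    have hcop2 : IsCoprime (A₀.comp (C (algebraMap ℂ K l) * X))
        (B₀.comp (C (algebraMap ℂ K l) * X)) :=
      hcop.map (compRingHom (C (algebraMap ℂ K l) * X))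
    have hcop3 : IsCoprime (C (algebraMap ℂ K l) * A₀.comp (C (algebraMap ℂ K l) * X))
        (B₀.comp (C (algebraMap ℂ K l) * X)) :=
      (isCoprime_mul_unit_left_left (isUnit_C.mpr hl'.isUnit) _ _).mpr hcop2
    have hco : (B₀.comp (C (algebraMap ℂ K l) * X)).coeff B₀.natDegree =
        algebraMap ℂ K l ^ B₀.natDegree := by
      rw [comp_C_mul_X_coeff, hmon.coeff_natDegree, one_mul]
    have hne : B₀.comp (C (algebraMap ℂ K l) * X) ≠ 0 := by
      intro h0
      rw [h0, coeff_zero] at hco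
      exact pow_ne_zero _ hl' hco.symm
    have e : C (algebraMap ℂ K l) * A₀.comp (C (algebraMap ℂ K l) * X) *
        B₀.map (τ l : K →+* K) =
        A₀.map (τ l : K →+* K) * B₀.comp (C (algebraMap ℂ K l) * X) := by
      apply Polynomial.eq_of_infinite_eval_eq
      have hinf : {t : ℂ | t ≠ 0}.Infinite := (Set.finite_singleton (0 : ℂ)).infinite_compl
      refine (hinf.image hinj.injOn).mono ?_
      rintro _ ⟨t, ht, rfl⟩
      have hlt : l * t ≠ 0 := mul_ne_zero hl ht
      have h := hτσ l t hl ht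
      have h1 : τ l (B₀.eval (algebraMap ℂ K t)) ≠ 0 := (_root_.map_ne_zero _).mpr (hB' t ht)
      rw [hx l hl, map_mul, AlgHom.commutes, hAB' t ht, hAB' _ hlt, map_div₀, ← mul_div_assoc,
        div_eq_div_iff h1 (hB' _ hlt), hev, hev] at h
      simp only [Set.mem_ofPred_eq, eval_mul, eval_comp, eval_X, eval_C]
      rw [← map_mul]
      exact h.symm
    obtain ⟨κ, h1, h2⟩ := reduced_unique hcop3 hcop1 hne e
    have hκ : κ = algebraMap ℂ K l ^ (- (B₀.natDegree : ℤ)) := by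
      have := congrArg (fun q => q.coeff B₀.natDegree) h2
      simp only [coeff_map, coeff_C_mul, hco, hmon.coeff_natDegree, map_one] at this
      rw [zpow_neg, zpow_natCast]
      exact eq_inv_of_mul_eq_one_left this.symm
    refine ⟨?_, by rw [h2, hκ]⟩
    rw [h1, hκ, ← mul_assoc, ← C_mul, sub_eq_add_neg, zpow_add₀ hl', zpow_one, mul_comm
      (algebraMap ℂ K l)]
  exact ⟨A₀, B₀, _, _, ⟨fun r hr => (htrans r hr).1, fun l hl => (hscal l hl).1⟩,
    ⟨fun r hr => (htrans r hr).2, fun l hl => (hscal l hl).2⟩, hB', hAB'⟩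

end Pool.Agent.Lib.MP_bb5dbd_ag
end

-- part Pool.Agent.Lib.MP_bb5dbd_ag.Abstract
section

set_option autoImplicit false

namespace Pool.Agent.Lib.MP_bb5dbd_ag

open Polynomial IntermediateField

theorem trdeg_step {F K : Type} [Field F] [Field K] [Algebra F K] (y : K)
    (hy : Transcendental F y) : 1 + Algebra.trdeg F⟮y⟯ K ≤ Algebra.trdeg F K := by
  rw [← trdeg_add_eq F F⟮y⟯ (A := K)]
  have : Algebra.Transcendental F F⟮y⟯ := by
    refine ⟨⟨AdjoinSimple.gen F y, ?_⟩⟩
    intro h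
    exact hy (isAlgebraic_algebraMap_iff (algebraMap F⟮y⟯ K).injective |>.mpr h)
  have h := trdeg_pos F F⟮y⟯
  gcongr
  exact Cardinal.one_le_iff_pos.mpr h

theorem fix_adjoin {F K : Type*} [Field F] [Field K] [Algebra F K] (φ : K →+* K)
    (h : ∀ e : F, φ (algebraMap F K e) = algebraMap F K e) (y : K) (hy : φ y = y) :
    ∀ e : F⟮y⟯, φ (algebraMap F⟮y⟯ K e) = algebraMap F⟮y⟯ K e := by
  rintro ⟨e, he⟩
  change φ e = e
  induction he using IntermediateField.adjoin_induction with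
  | mem x hx => rw [Set.mem_singleton_iff.mp hx, hy]
  | algebraMap x => exact h x
  | add x y _ _ hx hy => rw [map_add, hx, hy]
  | inv x _ hx => rw [map_inv₀, hx]
  | mul x y _ _ hx hy => rw [map_mul, hx, hy]

theorem isAlgebraic_of_adjoin_eq_top {F K : Type*} [Field F] [Field K] [Algebra F K] (S : Set K)
    (h : IntermediateField.adjoin F S = ⊤) : Algebra.IsAlgebraic (Algebra.adjoin F S) K := by
  refine ⟨fun g => ?_⟩
  have hg : g ∈ IntermediateField.adjoin F S := h ▸ IntermediateField.mem_top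
  obtain ⟨r, hr, s, hs, rfl⟩ := IntermediateField.mem_adjoin_iff_div.mp hg
  have h1 : IsAlgebraic (Algebra.adjoin F S) r := isAlgebraic_algebraMap (⟨r, hr⟩ : Algebra.adjoin F S)
  have h2 : IsAlgebraic (Algebra.adjoin F S) s := isAlgebraic_algebraMap (⟨s, hs⟩ : Algebra.adjoin F S)
  rw [div_eq_mul_inv]
  exact h1.mul h2.inv

variable {K : Type} [Field K] [Algebra ℂ K] {σ τ : ℂ → K →ₐ[ℂ] K}

theorem HomInv.zero (e : ℤ) : HomInv σ τ e 0 := ⟨fun _ _ => by simp, fun _ _ => by simp⟩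

theorem HomInv.one : HomInv σ τ 0 1 := ⟨fun _ _ => by simp, fun _ _ => by simp⟩

theorem HomInv.mul {e e' : ℤ} {g h : K} (hg : HomInv σ τ e g) (hh : HomInv σ τ e' h) :
    HomInv σ τ (e + e') (g * h) := by
  refine ⟨fun r hr => by rw [map_mul, hg.1 r hr, hh.1 r hr], fun l hl => ?_⟩
  have hl' : algebraMap ℂ K l ≠ 0 := (_root_.map_ne_zero _).mpr hl
  rw [map_mul, hg.2 l hl, hh.2 l hl, zpow_add₀ hl']
  ring

theorem HomInv.inv {e : ℤ} {g : K} (hg : HomInv σ τ e g) : HomInv σ τ (-e) g⁻¹ := by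
  refine ⟨fun r hr => by rw [map_inv₀, hg.1 r hr], fun l hl => ?_⟩
  rw [map_inv₀, hg.2 l hl, mul_inv, zpow_neg]

theorem HomInv.zpow {e : ℤ} {g : K} (hg : HomInv σ τ e g) (k : ℤ) :
    HomInv σ τ (e * k) (g ^ k) := by
  refine ⟨fun r hr => by rw [map_zpow₀, hg.1 r hr], fun l hl => ?_⟩
  rw [map_zpow₀, hg.2 l hl, mul_zpow, zpow_mul]

variable (σ τ) in
/-- Degrees of nonzero homogeneous invariants. -/
def degs : AddSubgroup ℤ where
  carrier := {e | ∃ h : K, h ≠ 0 ∧ HomInv σ τ e h}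
  zero_mem' := ⟨1, one_ne_zero, HomInv.one⟩
  add_mem' := by
    rintro a b ⟨g, hg0, hg⟩ ⟨h, hh0, hh⟩
    exact ⟨g * h, mul_ne_zero hg0 hh0, hg.mul hh⟩
  neg_mem' := by
    rintro a ⟨g, hg0, hg⟩
    exact ⟨g⁻¹, inv_ne_zero hg0, hg.inv⟩

variable (σ τ) in
/-- The field of invariants of degree zero. -/
def L0 : IntermediateField ℂ K where
  carrier := {h | HomInv σ τ 0 h}
  mul_mem' := by
    intro a b ha hb
    simpa using HomInv.mul ha hb
  add_mem' := by
    intro a b ha hb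
    refine ⟨fun r hr => by rw [map_add, ha.1 r hr, hb.1 r hr], fun l hl => ?_⟩
    rw [map_add, ha.2 l hl, hb.2 l hl, mul_add]
  algebraMap_mem' := fun c => ⟨fun r _ => by simp, fun l _ => by simp⟩
  inv_mem' := by
    intro a ha
    simpa using HomInv.inv ha

theorem mem_L0 {h : K} : h ∈ L0 σ τ ↔ HomInv σ τ 0 h := Iff.rfl

theorem infinite_ne_zero : {t : ℂ | t ≠ 0}.Infinite :=
  (Set.finite_singleton (0 : ℂ)).infinite_compl

theorem abstract_normal_form (x : Fin 3 → K)
    (hgen : IntermediateField.adjoin ℂ (Set.range x) = ⊤) (htr : Algebra.trdeg ℂ K = 3)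
    (hx2 : x 2 ≠ 0)
    (hτ : ∀ l : ℂ, l ≠ 0 → ∀ i, τ l (x i) = algebraMap ℂ K l * x i)
    (hτσ : ∀ l s : ℂ, l ≠ 0 → s ≠ 0 → ∀ y, τ l (σ s y) = σ (l * s) (τ l y))
    (A : Fin 3 → K[X]) (B : K[X]) (hB : ∀ s : ℂ, s ≠ 0 → B.eval (algebraMap ℂ K s) ≠ 0)
    (hAB : ∀ i, ∀ s : ℂ, s ≠ 0 →
      σ s (x i) = (A i).eval (algebraMap ℂ K s) / B.eval (algebraMap ℂ K s))
    (hc : ∀ i, ∀ r : ℂ, r ≠ 0 →
      {t : ℂ | t ≠ 0 ∧ r + t ≠ 0 ∧ σ r (σ t (x i)) = σ (r + t) (x i)}.Infinite)
    (hne : ∃ i, σ 1 (x i) ≠ x i)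
    (hlur : ∀ (F : IntermediateField ℂ K) (f : K), Transcendental ℂ f →
      (∀ g ∈ F, IsAlgebraic ℂ⟮f⟯ g) → ∃ b ∈ F, F = ℂ⟮b⟯) :
    ∃ (N : ℕ) (u b c : K), IsSlice σ τ u ∧ HomInv σ τ 0 b ∧ HomInv σ τ N c ∧
      IntermediateField.adjoin ℂ {u, b, c} = ⊤ := by
  have hinj : Function.Injective (algebraMap ℂ K) := (algebraMap ℂ K).injective
  choose A₀ B₀ e e' hA₀ hB₀ hB' hAB' using fun i =>
    exists_eqv (σ := σ) (τ := τ) (x i) (fun l hl => hτ l hl i) (fun l s hl hs => hτσ l s hl hs _)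
      (A i) B hB (hAB i) (hc i)
  have hev0 : ∀ (p : K[X]) (e : ℤ), Eqv σ τ p e → σ 1 (p.eval 0) = p.eval 1 := by
    intro p e hp
    have h1 := (Polynomial.eval_map_apply (f := (σ 1 : K →+* K)) (p := p) 0).symm
    rw [hp.1 1 one_ne_zero] at h1
    simpa using h1
  have hx0 : ∀ i, x i = (A₀ i).eval 0 / (B₀ i).eval 0 := by
    intro i
    apply (σ 1).toRingHom.injective
    change σ 1 _ = σ 1 _
    rw [map_div₀, hev0 _ _ (hA₀ i), hev0 _ _ (hB₀ i), hAB' i 1 one_ne_zero, map_one]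
  -- the slice
  obtain ⟨u, hu⟩ : ∃ u, IsSlice σ τ u := by
    obtain ⟨i, hi⟩ := hne
    by_cases h1 : (A₀ i).natDegree = 0
    · by_cases h2 : (B₀ i).natDegree = 0
      · exfalso
        apply hi
        rw [hAB' i 1 one_ne_zero, hx0 i, eq_C_of_natDegree_eq_zero h1,
          eq_C_of_natDegree_eq_zero h2]
        simp
      · obtain ⟨n, hn⟩ := Nat.exists_eq_succ_of_ne_zero h2
        exact exists_slice_of_natDegree n _ _ (hB₀ i) hn
    · obtain ⟨n, hn⟩ := Nat.exists_eq_succ_of_ne_zero h1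
      exact exists_slice_of_natDegree n _ _ (hA₀ i) hn
  have hu0 : u ≠ 0 := by
    rintro rfl
    have := hu.1 1 one_ne_zero
    simp at this
  have top_of_x : ∀ E : IntermediateField ℂ K, (∀ i, x i ∈ E) → E = ⊤ := by
    intro E hE
    rw [eq_top_iff, ← hgen, adjoin_le_iff]
    rintro _ ⟨i, rfl⟩
    exact hE i
  -- generation by the slice and the homogeneous invariants
  have top_of : ∀ E : IntermediateField ℂ K, u ∈ E → (∀ e h, HomInv σ τ e h → h ∈ E) → E = ⊤ := by
    intro E huE hE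
    have hp : ∀ (p : K[X]) (e : ℤ), Eqv σ τ p e → p.eval 0 ∈ E := by
      intro p e hp
      have : p.eval 0 = (p.comp (X - C u)).eval u := by simp [eval_comp]
      rw [this, eval_eq_sum_range]
      exact E.sum_mem fun j _ => E.mul_mem (hE _ _ (hp.coeff_shift hu j)) (pow_mem huE j)
    refine top_of_x E fun i => ?_
    rw [hx0 i]
    exact E.div_mem (hp _ _ (hA₀ i)) (hp _ _ (hB₀ i))
  obtain ⟨a, ha⟩ := Int.subgroup_cyclic (degs σ τ)
  have hdvd : ∀ e h, h ≠ 0 → HomInv σ τ e h → ∃ k : ℤ, e = (a.natAbs : ℤ) * k := by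
    intro e h h0 hh
    have : e ∈ degs σ τ := ⟨h, h0, hh⟩
    rw [ha, AddSubgroup.mem_closure_singleton] at this
    obtain ⟨n, rfl⟩ := this
    have : (a.natAbs : ℤ) ∣ n • a := Int.natAbs_dvd.mpr (Dvd.intro_left n rfl)
    exact this
  obtain ⟨c, hc0, hcN⟩ : (a.natAbs : ℤ) ∈ degs σ τ := by
    have h1 : a ∈ degs σ τ := by
      rw [ha]; exact AddSubgroup.subset_closure rfl
    rcases Int.natAbs_eq a with h | h
    · rwa [← h]
    · have := (degs σ τ).neg_mem h1
      rwa [h, neg_neg] at this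
  set N := a.natAbs with hN
  have hL0fixτ : ∀ l : ℂ, l ≠ 0 → ∀ g ∈ L0 σ τ, (τ l : K →+* K) g = g := by
    intro l hl g hg
    simpa using hg.2 l hl
  by_cases hN0 : N = 0
  · -- the flow preserves lines through the origin
    have hall : ∀ e h, HomInv σ τ e h → h ∈ L0 σ τ := by
      intro e h hh
      by_cases h0 : h = 0
      · rw [h0]; exact zero_mem _
      obtain ⟨k, hk⟩ := hdvd e h h0 hh
      rw [hN0, Nat.cast_zero, zero_mul] at hk
      rw [mem_L0, ← hk]; exact hh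
    have h1 : ((L0 σ τ)⟮u⟯).restrictScalars ℂ = ⊤ := by
      refine top_of _ (mem_adjoin_simple_self _ u) fun e h hh => ?_
      exact ((L0 σ τ)⟮u⟯).algebraMap_mem ⟨h, hall e h hh⟩
    have hdeg0 : ∀ g : K, (∀ l : ℂ, l ≠ 0 → τ l g = g) → g ∈ L0 σ τ := by
      intro g hg
      refine mem_of_scaling_invariant (L0 σ τ) u g hu0 ?_
        (algebraMap ℂ K '' {t : ℂ | t ≠ 0}) (infinite_ne_zero.image hinj.injOn) ?_
      · have : g ∈ ((L0 σ τ)⟮u⟯).restrictScalars ℂ := h1 ▸ mem_top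
        exact this
      · rintro _ ⟨l, hl, rfl⟩
        have hl' : l⁻¹ ≠ 0 := inv_ne_zero hl
        refine ⟨τ l⁻¹, hL0fixτ _ hl', ?_, hg _ hl'⟩
        simpa using hu.2 _ hl'
    have hq : ∀ i, ∀ l : ℂ, l ≠ 0 → τ l (x i / x 2) = x i / x 2 := by
      intro i l hl
      have hl' : algebraMap ℂ K l ≠ 0 := (_root_.map_ne_zero _).mpr hl
      rw [map_div₀, hτ l hl, hτ l hl, mul_div_mul_left _ _ hl']
    refine ⟨0, u, x 1 / x 2, x 0 / x 2, hu, hdeg0 _ (hq 1), hdeg0 _ (hq 0), ?_⟩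
    let E : IntermediateField ℂ K := IntermediateField.adjoin ℂ {x 1 / x 2, x 0 / x 2}
    have hEL : E ≤ L0 σ τ := by
      rw [adjoin_le_iff]
      rintro _ (rfl | rfl)
      · exact hdeg0 _ (hq 1)
      · exact hdeg0 _ (hq 0)
    have h2 : (E⟮x 2⟯).restrictScalars ℂ = ⊤ := by
      have h22 : x 2 ∈ E⟮x 2⟯ := mem_adjoin_simple_self _ _
      have hq' : ∀ g ∈ E, g ∈ E⟮x 2⟯ := fun g hg => (E⟮x 2⟯).algebraMap_mem ⟨g, hg⟩
      refine top_of_x _ fun i => ?_
      change x i ∈ E⟮x 2⟯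
      fin_cases i
      · have : x 0 = x 0 / x 2 * x 2 := by field_simp
        change x 0 ∈ _
        rw [this]
        exact mul_mem (hq' _ (subset_adjoin _ _ (by simp))) h22
      · have : x 1 = x 1 / x 2 * x 2 := by field_simp
        change x 1 ∈ _
        rw [this]
        exact mul_mem (hq' _ (subset_adjoin _ _ (by simp))) h22
      · exact h22
    have h3 : u * x 2 ∈ E := by
      refine mem_of_scaling_invariant E (x 2) _ hx2 ?_
        (algebraMap ℂ K '' {t : ℂ | t ≠ 0}) (infinite_ne_zero.image hinj.injOn) ?_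
      · have : u * x 2 ∈ (E⟮x 2⟯).restrictScalars ℂ := h2 ▸ mem_top
        exact this
      · rintro _ ⟨l, hl, rfl⟩
        have hl' : algebraMap ℂ K l ≠ 0 := (_root_.map_ne_zero _).mpr hl
        refine ⟨τ l, fun g hg => hL0fixτ l hl g (hEL hg), hτ l hl 2, ?_⟩
        change τ l _ = _
        rw [map_mul, hu.2 l hl, hτ l hl]
        field_simp
    set G := IntermediateField.adjoin ℂ {u, x 1 / x 2, x 0 / x 2} with hG
    have hEG : E ≤ G := adjoin.mono _ _ _ (Set.subset_insert _ _)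
    have huG : u ∈ G := subset_adjoin _ _ (by simp)
    have h2G : x 2 ∈ G := by
      have : x 2 = u * x 2 / u := by field_simp
      rw [this]
      exact div_mem (hEG h3) huG
    refine top_of_x _ fun i => ?_
    fin_cases i
    · have : x 0 = x 0 / x 2 * x 2 := by field_simp
      change x 0 ∈ _
      rw [this]
      exact mul_mem (subset_adjoin _ _ (by simp)) h2G
    · have : x 1 = x 1 / x 2 * x 2 := by field_simp
      change x 1 ∈ _
      rw [this]
      exact mul_mem (subset_adjoin _ _ (by simp)) h2G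
    · exact h2G
  · -- two-dimensional orbits
    have top_of' : ∀ E : IntermediateField ℂ K, u ∈ E → c ∈ E → L0 σ τ ≤ E → E = ⊤ := by
      intro E huE hcE hE
      refine top_of E huE fun e h hh => ?_
      by_cases h0 : h = 0
      · rw [h0]; exact zero_mem _
      obtain ⟨k, hk⟩ := hdvd e h h0 hh
      have h1 : h * (c ^ k)⁻¹ ∈ L0 σ τ := by
        have := hh.mul (hcN.zpow k).inv
        rwa [← hk, add_neg_cancel] at this
      have h2 : h = h * (c ^ k)⁻¹ * c ^ k := by
        have := zpow_ne_zero k hc0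
        field_simp
      rw [h2]
      exact mul_mem (hE h1) (zpow_mem hcE k)
    have htr_u : ∀ (F : Type) [Field F] [Algebra F K],
        (∀ r : ℂ, r ≠ 0 → ∀ g : F, (σ r : K →+* K) (algebraMap F K g) = algebraMap F K g) →
        Transcendental F u := by
      intro F _ _ hF
      refine transcendental_of_infinite_conj u ((fun r => u + algebraMap ℂ K r) '' {t : ℂ | t ≠ 0})
        (infinite_ne_zero.image fun r _ s _ h => hinj (add_left_cancel h)) ?_
      rintro _ ⟨r, hr, rfl⟩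
      exact ⟨σ r, hF r hr, hu.1 r hr⟩
    have htr_c : ∀ (F : Type) [Field F] [Algebra F K],
        (∀ l : ℂ, l ≠ 0 → ∀ g : F, (τ l : K →+* K) (algebraMap F K g) = algebraMap F K g) →
        Transcendental F c := by
      intro F _ _ hF
      refine transcendental_of_infinite_conj c
        (Set.range fun n : ℕ => algebraMap ℂ K (((n + 1 : ℕ) : ℂ) ^ N) * c)
        (Set.infinite_range_of_injective fun m n h => ?_) ?_
      · have h1 := hinj (mul_right_cancel₀ hc0 h)
        have h2 : (m + 1) ^ N = (n + 1) ^ N := by exact_mod_cast h1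
        have := Nat.pow_left_injective hN0 h2
        omega
      · rintro _ ⟨n, rfl⟩
        have hn : ((n + 1 : ℕ) : ℂ) ≠ 0 := by exact_mod_cast Nat.succ_ne_zero n
        refine ⟨τ _, hF _ hn, ?_⟩
        have := hcN.2 _ hn
        rw [zpow_natCast, ← map_pow] at this
        exact this
    -- there is a transcendental invariant of degree zero
    obtain ⟨f, hf, hft⟩ : ∃ f ∈ L0 σ τ, Transcendental ℂ f := by
      by_contra hcon
      push Not at hcon
      have halg : Algebra.IsAlgebraic ℂ (L0 σ τ) := by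
        refine ⟨fun g => ?_⟩
        have := hcon g g.2
        rw [Transcendental, not_not] at this
        exact (isAlgebraic_algebraMap_iff (algebraMap (L0 σ τ) K).injective).mp this
      have h1 : (IntermediateField.adjoin (L0 σ τ) {u, c}).restrictScalars ℂ = ⊤ := by
        refine top_of' _ ?_ ?_ fun g hg => ?_
        · exact subset_adjoin (L0 σ τ) _ (by simp)
        · exact subset_adjoin (L0 σ τ) _ (by simp)
        · exact (IntermediateField.adjoin (L0 σ τ) {u, c}).algebraMap_mem ⟨g, hg⟩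
      have h2 : IntermediateField.adjoin (L0 σ τ) {u, c} = ⊤ := by
        rw [eq_top_iff]
        intro g _
        have : g ∈ (IntermediateField.adjoin (L0 σ τ) {u, c}).restrictScalars ℂ := h1 ▸ mem_top
        exact this
      have := isAlgebraic_of_adjoin_eq_top _ h2
      have h3 := Algebra.IsAlgebraic.trdeg_le_cardinalMk (L0 σ τ) ({u, c} : Set K)
      have h4 : Cardinal.mk ({u, c} : Set K) ≤ 2 := by
        refine Cardinal.mk_insert_le.trans ?_
        rw [Cardinal.mk_singleton]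
        norm_num
      have h5 := trdeg_add_eq ℂ (L0 σ τ) (A := K)
      rw [trdeg_eq_zero, zero_add, htr] at h5
      rw [h5] at h3
      have h6 := h3.trans h4
      norm_num at h6
    have halg : ∀ g ∈ L0 σ τ, IsAlgebraic ℂ⟮f⟯ g := by
      intro g hg
      by_contra hgt
      have s1 := trdeg_step f hft
      have s2 := trdeg_step (F := ℂ⟮f⟯) g hgt
      have s3 := trdeg_step (F := ℂ⟮f⟯⟮g⟯) c (htr_c _ fun l hl =>
        fix_adjoin _ (fix_adjoin _ (fun e => (τ l).commutes e) f (hL0fixτ l hl f hf)) g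
          (hL0fixτ l hl g hg))
      have s4 := trdeg_step (F := ℂ⟮f⟯⟮g⟯⟮c⟯) u (htr_u _ fun r hr =>
        fix_adjoin _ (fix_adjoin _ (fix_adjoin _ (fun e => (σ r).commutes e) f (hf.1 r hr)) g
          (hg.1 r hr)) c (hcN.1 r hr))
      have h4 : (4 : Cardinal) ≤ Algebra.trdeg ℂ K := by
        calc (4 : Cardinal) = 1 + (1 + (1 + (1 + 0))) := by norm_num
          _ ≤ 1 + (1 + (1 + (1 + Algebra.trdeg ℂ⟮f⟯⟮g⟯⟮c⟯⟮u⟯ K))) := by
            gcongr; exact zero_le
          _ ≤ 1 + (1 + (1 + Algebra.trdeg ℂ⟮f⟯⟮g⟯⟮c⟯ K)) := by gcongr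
          _ ≤ 1 + (1 + Algebra.trdeg ℂ⟮f⟯⟮g⟯ K) := by gcongr
          _ ≤ 1 + Algebra.trdeg ℂ⟮f⟯ K := by gcongr
          _ ≤ _ := s1
      rw [htr] at h4
      norm_num at h4
    obtain ⟨b, hb, hLb⟩ := hlur (L0 σ τ) f hft halg
    refine ⟨N, u, b, c, hu, hb, hcN, top_of' _ ?_ ?_ ?_⟩
    · exact subset_adjoin _ _ (by simp)
    · exact subset_adjoin _ _ (by simp)
    · rw [hLb]
      exact adjoin.mono _ _ _ (by simp)

end Pool.Agent.Lib.MP_bb5dbd_ag
end
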