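import Mathlib
import Pool.Agent.Lib.MP_bb5dbd_ag.Abstract


set_option autoImplicit false

namespace Pool.Agent.Lib.MP_bb5dbd_ag

open MvPolynomial Filter IntermediateField

/-- The flow at time `s`, as an endomorphism of the function field. -/
noncomputable def sig (φ : K3 →ₐ[ℂ] K3) (s : ℂ) : K3 →ₐ[ℂ] K3 :=
  (tau s).comp (φ.comp (tau s⁻¹))

theorem tau_sig (φ : K3 →ₐ[ℂ] K3) {l s : ℂ} (hl : l ≠ 0) (hs : s ≠ 0) (y : K3) :
    tau l (sig φ s y) = sig φ (l * s) (tau l y) := by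
  simp only [sig, AlgHom.comp_apply]
  rw [tau_tau hl hs, tau_tau (inv_ne_zero (mul_ne_zero hl hs)) hl]
  congr 3
  field_simp

theorem sig_one (φ : K3 →ₐ[ℂ] K3) (y : K3) : sig φ 1 y = φ y := by
  simp [sig, tau_one]

/-- Normal form at the level of the function field. -/
theorem field_normal_form (P : Fin 3 → A3) (Q : A3) (Φ : (Fin 3 → ℂ) → (Fin 3 → ℂ)) (hQ : Q ≠ 0)
    (hΦ : ∀ p : Fin 3 → ℂ, Φ p = fun i => eval p (P i) / eval p Q)
    (hid : ¬ ∀ i : Fin 3, P i = X i * Q)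
    (V : Set ((Fin 3 → ℂ) × ℂ)) (hV : IsOpen V) (hVne : V.Nonempty)
    (hVeq : ∀ q ∈ V, q.2 ≠ 0 ∧ (1 - q.2) • Φ q.1 = Φ (((1 - q.2) / q.2) • Φ (q.2 • q.1)))
    (φ : K3 →ₐ[ℂ] K3) (hφ : ∀ i, φ (xg i) = algebraMap A3 K3 (P i) / algebraMap A3 K3 Q) :
    ∃ (N : ℕ) (ξ : Fin 3 → K3), IntermediateField.adjoin ℂ (Set.range ξ) = ⊤ ∧
      (∀ l : ℂ, l ≠ 0 → ∀ i, tau l (ξ i) = algebraMap ℂ K3 l * ξ i) ∧
      φ (ξ 0) = ξ 0 * (ξ 2 + 1) ^ ((N : ℤ) - 1) ∧ φ (ξ 1) = ξ 1 / (ξ 2 + 1) ∧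
      φ (ξ 2) = ξ 2 / (ξ 2 + 1) := by
  have hsig : ∀ s : ℂ, s ≠ 0 → ∀ i, sig φ s (xg i) =
      algebraMap ℂ K3 s⁻¹ * (algebraMap A3 K3 (sc s (P i)) / algebraMap A3 K3 (sc s Q)) := by
    intro s hs i
    simp only [sig, AlgHom.comp_apply]
    rw [tau_xg (inv_ne_zero hs), map_mul, map_mul, AlgHom.commutes, AlgHom.commutes, hφ,
      map_div₀ (tau s), tau_alg hs, tau_alg hs]
  have hrep : ∀ s : ℂ, s ≠ 0 → ∀ i,
      Rep (sig φ s (xg i)) (fun x => (s⁻¹ • Φ (s • x)) i) := by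
    intro s hs i
    rw [hsig s hs]
    have := (Rep.const s⁻¹).mul (Rep.frac (sc s (P i)) (sc_ne_zero hs hQ))
    simpa only [eval_sc, hΦ, Pi.smul_apply, smul_eq_mul] using this
  let ρ : A3 →ₐ[ℂ] Polynomial K3 := aeval fun j => Polynomial.C (xg j) * Polynomial.X
  have hρ : ∀ (s : ℂ) (p : A3),
      (ρ p).eval (algebraMap ℂ K3 s) = algebraMap A3 K3 (sc s p) := by
    intro s p
    rw [← aeval_scale]
    induction p using MvPolynomial.induction_on with
    | C c => simp [ρ]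
    | add p q hp hq => simp only [map_add, Polynomial.eval_add, hp, hq]
    | mul_X p i hp =>
      simp only [map_mul, Polynomial.eval_mul, hp, aeval_X, ρ, Polynomial.eval_C,
        Polynomial.eval_X]
      ring
  have hx2 : xg 2 ≠ 0 := alg_ne_zero (X_ne_zero 2)
  obtain ⟨N, u, b, c, hu, hb, hc, htop⟩ := abstract_normal_form (σ := sig φ) (τ := tau) xg
    adjoin_xg trdeg_K3 hx2 (fun l hl i => tau_xg hl i) (fun l s hl hs y => tau_sig φ hl hs y)
    (fun i => ρ (P i)) (Polynomial.X * ρ Q)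
    (fun s hs => by
      rw [Polynomial.eval_mul, Polynomial.eval_X, hρ]
      exact mul_ne_zero ((_root_.map_ne_zero _).mpr hs) (alg_ne_zero (sc_ne_zero hs hQ)))
    (fun i s hs => by
      rw [hsig s hs, Polynomial.eval_mul, Polynomial.eval_X, hρ, hρ, map_inv₀]
      field_simp)
    (fun i r hr => by
      obtain ⟨⟨x₀, z₀⟩, hq₀⟩ := hVne
      obtain ⟨U, W, hU, hW, hxU, hzW, hUW⟩ := isOpen_prod_iff.mp hV x₀ z₀ hq₀
      have hWinf : (W \ {1}).Infinite :=
        (infinite_of_mem_nhds z₀ (hW.mem_nhds hzW)).sdiff (Set.finite_singleton 1)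
      have hW0 : ∀ z ∈ W, z ≠ 0 := fun z hz => (hVeq (x₀, z) (hUW ⟨hxU, hz⟩)).1
      have hinjOn : Set.InjOn (fun z : ℂ => r * (1 - z) / z) (W \ {1}) := by
        intro z hz z' hz' h
        have h1 := hW0 z hz.1
        have h2 := hW0 z' hz'.1
        simp only at h
        rw [div_eq_div_iff h1 h2] at h
        apply mul_left_cancel₀ hr
        linear_combination -h
      refine (hWinf.image hinjOn).mono ?_
      rintro _ ⟨z, ⟨hzW', hz1⟩, rfl⟩
      have hz0 := hW0 z hzW'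
      have hz1' : 1 - z ≠ 0 := sub_ne_zero.mpr (Ne.symm hz1)
      have ht0 : r * (1 - z) / z ≠ 0 := div_ne_zero (mul_ne_zero hr hz1') hz0
      have hrt : r + r * (1 - z) / z = r / z := by field_simp; ring
      have hrz : r / z ≠ 0 := div_ne_zero hr hz0
      refine ⟨ht0, by rw [hrt]; exact hrz, ?_⟩
      simp only
      rw [hrt]
      have h1 : Rep (sig φ r (sig φ (r * (1 - z) / z) (xg i)))
          (fun x => ((r * (1 - z) / z)⁻¹ • Φ ((r * (1 - z) / z) • r⁻¹ • Φ (r • x))) i) := by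
        rw [hsig _ ht0, map_mul, AlgHom.commutes]
        have := (Rep.const (r * (1 - z) / z)⁻¹).mul (rep_hom_frac (sig φ r) (hrep r hr)
          (sc (r * (1 - z) / z) (P i)) (sc (r * (1 - z) / z) Q))
        simp only [eval_sc] at this
        refine this.congr (Eventually.of_forall fun x => ?_)
        rw [hΦ ((r * (1 - z) / z) • r⁻¹ • Φ (r • x))]
        simp only [Pi.smul_apply, smul_eq_mul]
      refine h1.eq_of_open (hrep _ hrz i) (U := (fun x => (r / z) • x) ⁻¹' U)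
        (hU.preimage (by fun_prop)) ⟨(r / z)⁻¹ • x₀, by
          simpa only [Set.mem_preimage, smul_inv_smul₀ hrz] using hxU⟩ ?_
      intro x hx
      have h2 := (hVeq ((r / z) • x, z) (hUW ⟨hx, hzW'⟩)).2
      simp only at h2
      have e1 : z • (r / z) • x = r • x := by
        rw [smul_smul]; congr 1; field_simp
      have e2 : (r * (1 - z) / z) • r⁻¹ • Φ (r • x) = ((1 - z) / z) • Φ (r • x) := by
        rw [smul_smul]; congr 1; field_simp
      rw [e1] at h2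
      rw [e2, ← h2, smul_smul]
      congr 2
      field_simp)
    (by
      by_contra hcon
      push Not at hcon
      apply hid
      intro i
      have := hcon i
      rw [sig_one, hφ, div_eq_iff (alg_ne_zero hQ), xg, ← map_mul] at this
      exact IsFractionRing.injective A3 K3 this)
    luroth_K3
  have hφu : φ u = u + 1 := by simpa [sig_one] using hu.1 1 one_ne_zero
  have hφb : φ b = b := by simpa [sig_one] using hb.1 1 one_ne_zero
  have hφc : φ c = c := by simpa [sig_one] using hc.1 1 one_ne_zero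
  have hu0 : u ≠ 0 := by
    rintro rfl
    simp at hφu
  have hu1 : u + 1 ≠ 0 := by
    rw [← hφu]
    exact (_root_.map_ne_zero φ).mpr hu0
  refine ⟨N, ![c * u ^ ((N : ℤ) - 1), b / u, u⁻¹], ?_, ?_, ?_, ?_, ?_⟩
  · rw [eq_top_iff, ← htop, adjoin_le_iff]
    set G := IntermediateField.adjoin ℂ (Set.range ![c * u ^ ((N : ℤ) - 1), b / u, u⁻¹])
    have g0 : c * u ^ ((N : ℤ) - 1) ∈ G := subset_adjoin _ _ ⟨0, rfl⟩
    have g1 : b / u ∈ G := subset_adjoin _ _ ⟨1, rfl⟩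
    have g2 : u⁻¹ ∈ G := subset_adjoin _ _ ⟨2, rfl⟩
    have gu : u ∈ G := by simpa using inv_mem g2
    rintro _ (rfl | rfl | rfl)
    · exact gu
    · have := mul_mem g1 gu
      rwa [div_mul_cancel₀ _ hu0] at this
    · have := div_mem g0 (zpow_mem gu ((N : ℤ) - 1))
      rwa [mul_div_cancel_right₀ _ (zpow_ne_zero _ hu0)] at this
  · intro l hl i
    have hl' : algebraMap ℂ K3 l ≠ 0 := (_root_.map_ne_zero _).mpr hl
    fin_cases i
    · change tau l (c * u ^ ((N : ℤ) - 1)) = _ * (c * u ^ ((N : ℤ) - 1))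
      rw [map_mul, map_zpow₀, hc.2 l hl, hu.2 l hl, mul_zpow, inv_zpow', neg_sub,
        zpow_sub₀ hl', zpow_one]
      have := zpow_ne_zero (N : ℤ) hl'
      field_simp
    · change tau l (b / u) = _ * (b / u)
      rw [map_div₀, hb.2 l hl, hu.2 l hl]
      field_simp
    · change tau l u⁻¹ = _ * u⁻¹
      rw [map_inv₀, hu.2 l hl]
      field_simp
  · change φ (c * u ^ ((N : ℤ) - 1)) = c * u ^ ((N : ℤ) - 1) * (u⁻¹ + 1) ^ ((N : ℤ) - 1)
    rw [map_mul, map_zpow₀, hφc, hφu, mul_assoc, ← mul_zpow]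
    congr 2
    field_simp
    ring
  · change φ (b / u) = b / u / (u⁻¹ + 1)
    have : u⁻¹ + 1 = (u + 1) / u := by field_simp; ring
    rw [map_div₀, hφb, hφu, this]
    field_simp
  · change φ u⁻¹ = u⁻¹ / (u⁻¹ + 1)
    have : u⁻¹ + 1 = (u + 1) / u := by field_simp; ring
    rw [map_inv₀, hφu, this]
    field_simp

end Pool.Agent.Lib.MP_bb5dbd_ag
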