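import Pool.Agent.Lib.MP_bb5dbd_ag.Normal

set_option autoImplicit false

namespace Pool.Agent.Lib.MP_bb5dbd_ag

open MvPolynomial Filter

/-- The polynomial ring in the three coordinates and the scalar. -/
abbrev A4 : Type := MvPolynomial (Option (Fin 3)) ℂ

/-- The field of rational functions in the three coordinates and the scalar. -/
abbrev K4 : Type := FractionRing A4

/-- The filter of sets containing a nonempty Zariski open set, four variables. -/
def gen4 : Filter (Option (Fin 3) → ℂ) where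
  sets := {S | ∃ G : A4, G ≠ 0 ∧ ∀ x, eval x G ≠ 0 → x ∈ S}
  univ_sets := ⟨1, one_ne_zero, fun _ _ => trivial⟩
  sets_of_superset := by
    rintro S T ⟨G, hG, h⟩ hST
    exact ⟨G, hG, fun x hx => hST (h x hx)⟩
  inter_sets := by
    rintro S T ⟨G, hG, h⟩ ⟨G', hG', h'⟩
    refine ⟨G * G', mul_ne_zero hG hG', fun x hx => ?_⟩
    rw [map_mul] at hx
    exact ⟨h x (left_ne_zero_of_mul hx), h' x (right_ne_zero_of_mul hx)⟩

theorem ev4_ne_zero {G : A4} (hG : G ≠ 0) : ∀ᶠ x in gen4, eval x G ≠ 0 :=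
  ⟨G, hG, fun _ h => h⟩

theorem alg4_ne_zero {q : A4} (hq : q ≠ 0) : algebraMap A4 K4 q ≠ 0 :=
  fun h => hq (IsFractionRing.injective A4 K4 (by rw [h, map_zero]))

/-- The function `f` generically represents the rational function `g`. -/
def Rep4 (g : K4) (f : (Option (Fin 3) → ℂ) → ℂ) : Prop :=
  ∃ p q : A4, q ≠ 0 ∧ g = algebraMap A4 K4 p / algebraMap A4 K4 q ∧
    ∀ᶠ x in gen4, f x = eval x p / eval x q

theorem Rep4.poly (p : A4) : Rep4 (algebraMap A4 K4 p) (fun x => eval x p) :=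
  ⟨p, 1, one_ne_zero, by simp, Eventually.of_forall fun _ => by simp⟩

theorem Rep4.const (c : ℂ) : Rep4 (algebraMap ℂ K4 c) (fun _ => c) := by
  have := Rep4.poly (C c)
  simpa [IsScalarTower.algebraMap_apply ℂ A4 K4] using this

theorem Rep4.add {g g' : K4} {f f' : (Option (Fin 3) → ℂ) → ℂ} (h : Rep4 g f)
    (h' : Rep4 g' f') : Rep4 (g + g') (fun x => f x + f' x) := by
  obtain ⟨p, q, hq, rfl, hf⟩ := h
  obtain ⟨p', q', hq', rfl, hf'⟩ := h'
  refine ⟨p * q' + q * p', q * q', mul_ne_zero hq hq', ?_, ?_⟩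
  · rw [div_add_div _ _ (alg4_ne_zero hq) (alg4_ne_zero hq')]
    simp
  · filter_upwards [hf, hf', ev4_ne_zero hq, ev4_ne_zero hq'] with x h1 h2 h3 h4
    rw [h1, h2, div_add_div _ _ h3 h4]
    simp

theorem Rep4.mul {g g' : K4} {f f' : (Option (Fin 3) → ℂ) → ℂ} (h : Rep4 g f)
    (h' : Rep4 g' f') : Rep4 (g * g') (fun x => f x * f' x) := by
  obtain ⟨p, q, hq, rfl, hf⟩ := h
  obtain ⟨p', q', hq', rfl, hf'⟩ := h'
  refine ⟨p * p', q * q', mul_ne_zero hq hq', ?_, ?_⟩
  · rw [div_mul_div_comm]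
    simp
  · filter_upwards [hf, hf'] with x h1 h2
    rw [h1, h2, div_mul_div_comm]
    simp

theorem Rep4.inv {g : K4} {f : (Option (Fin 3) → ℂ) → ℂ} (h : Rep4 g f) :
    Rep4 g⁻¹ (fun x => (f x)⁻¹) := by
  obtain ⟨p, q, hq, rfl, hf⟩ := h
  by_cases hp : p = 0
  · subst hp
    refine ⟨0, 1, one_ne_zero, by simp, ?_⟩
    filter_upwards [hf] with x h1
    simp [h1]
  · refine ⟨q, p, hp, by rw [inv_div], ?_⟩
    filter_upwards [hf] with x h1
    rw [h1, inv_div]

theorem Rep4.div {g g' : K4} {f f' : (Option (Fin 3) → ℂ) → ℂ} (h : Rep4 g f)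
    (h' : Rep4 g' f') : Rep4 (g / g') (fun x => f x / f' x) := by
  simpa only [div_eq_mul_inv] using h.mul h'.inv

theorem Rep4.aeval {g : Fin 3 → K4} {f : (Option (Fin 3) → ℂ) → (Fin 3 → ℂ)}
    (h : ∀ i, Rep4 (g i) (fun x => f x i)) (R : A3) :
    Rep4 (aeval g R) (fun x => eval (f x) R) := by
  induction R using MvPolynomial.induction_on with
  | C c => simpa using Rep4.const c
  | add p q hp hq => simpa only [map_add] using hp.add hq
  | mul_X p i hp => simpa only [map_mul, aeval_X, eval_X] using hp.mul (h i)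

theorem Rep4.eq_zero {f : (Option (Fin 3) → ℂ) → ℂ} (h : Rep4 0 f) :
    ∀ᶠ x in gen4, f x = 0 := by
  obtain ⟨p, q, hq, h0, hf⟩ := h
  have hp : p = 0 := by
    by_contra hp
    exact div_ne_zero (alg4_ne_zero hp) (alg4_ne_zero hq) h0.symm
  filter_upwards [hf] with x h1
  simp [h1, hp]

theorem Rep4.sub {g g' : K4} {f f' : (Option (Fin 3) → ℂ) → ℂ} (h : Rep4 g f)
    (h' : Rep4 g' f') : Rep4 (g - g') (fun x => f x - f' x) := by
  have := h.add ((Rep4.const (-1)).mul h')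
  simpa [sub_eq_add_neg] using this

theorem Rep4.unique {g : K4} {f f' : (Option (Fin 3) → ℂ) → ℂ} (h : Rep4 g f)
    (h' : Rep4 g f') : ∀ᶠ x in gen4, f x = f' x := by
  have := h.sub h'
  rw [sub_self] at this
  filter_upwards [this.eq_zero] with x hx using sub_eq_zero.mp hx

theorem rep4_X (o : Option (Fin 3)) : Rep4 (algebraMap A4 K4 (X o)) (fun x => x o) := by
  simpa using Rep4.poly (X o)

/-- A nonzero polynomial stays nonzero under a substitution that specialises onto every point. -/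
theorem aeval4_ne_zero (s : Fin 3 → A4) (hs : ∀ y : Fin 3 → ℂ, ∃ y4 : Option (Fin 3) → ℂ,
      (fun i => eval y4 (s i)) = y) {Q : A3} (hQ : Q ≠ 0) :
    aeval (fun i => algebraMap A4 K4 (s i)) Q ≠ 0 := by
  obtain ⟨y, -, hy⟩ := exists_ne_zero_of_open isOpen_univ Set.univ_nonempty hQ
  obtain ⟨y4, rfl⟩ := hs y
  have e1 : (aeval (fun i => algebraMap A4 K4 (s i)) : A3 →ₐ[ℂ] K4) =
      (IsScalarTower.toAlgHom ℂ A4 K4).comp (aeval s) := by
    ext i
    simp
  have e2 : (aeval y4 : A4 →ₐ[ℂ] ℂ).comp (aeval s) = aeval (fun i => eval y4 (s i)) := by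
    ext i
    simp [aeval_eq_eval]
  rw [e1]
  refine alg4_ne_zero (q := aeval s Q) fun h0 => hy ?_
  have h2 := congrArg (fun φ : A3 →ₐ[ℂ] ℂ => φ Q) e2
  simp only [AlgHom.comp_apply, h0, map_zero] at h2
  simpa [aeval_eq_eval] using h2.symm

theorem open_of_ev4 {P : (Fin 3 → ℂ) × ℂ → Prop}
    (hP : ∀ᶠ y in gen4, P (fun i => y (some i), y none)) :
    ∃ V : Set ((Fin 3 → ℂ) × ℂ), IsOpen V ∧ V.Nonempty ∧ ∀ q ∈ V, P q := by
  obtain ⟨G, hG, h⟩ := hP
  let e : (Fin 3 → ℂ) × ℂ → (Option (Fin 3) → ℂ) := fun q o => o.elim q.2 q.1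
  have he : Continuous e := by
    refine continuous_pi fun o => ?_
    cases o with
    | none => exact continuous_snd
    | some i => exact (continuous_apply i).comp continuous_fst
  refine ⟨{q | eval (e q) G ≠ 0},
    isOpen_ne_fun ((MvPolynomial.continuous_eval G).comp he) continuous_const, ?_,
    fun q hq => h (e q) hq⟩
  by_contra hcon
  apply hG
  refine MvPolynomial.funext fun y => ?_
  rw [map_zero]
  by_contra hy
  apply hcon
  refine ⟨(fun i => y (some i), y none), ?_⟩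
  have : e (fun i => y (some i), y none) = y := by
    funext o
    cases o <;> rfl
  change eval (e _) G ≠ 0
  rwa [this]

theorem ev_smul_ne_zero {G : A3} {x : Fin 3 → ℂ} (hx : eval x G ≠ 0) :
    ∀ᶠ z in nhdsWithin (0 : ℂ) {0}ᶜ, eval (z • x) G ≠ 0 := by
  let Gx : Polynomial ℂ := aeval (fun i => Polynomial.C (x i) * Polynomial.X) G
  have hGx : ∀ z : ℂ, Gx.eval z = eval (z • x) G := by
    intro z
    have : ((Polynomial.aeval z : Polynomial ℂ →ₐ[ℂ] ℂ).comp
        (aeval (fun i => Polynomial.C (x i) * Polynomial.X))) = aeval (z • x) := by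
      ext i
      simp only [AlgHom.comp_apply, aeval_X, map_mul, Polynomial.aeval_C, Polynomial.aeval_X,
        Pi.smul_apply, smul_eq_mul, Algebra.algebraMap_self, RingHom.id_apply]
      ring
    have h2 := congrArg (fun φ : A3 →ₐ[ℂ] ℂ => φ G) this
    simpa [Gx, Polynomial.coe_aeval_eq_eval, aeval_eq_eval] using h2
  have hGx0 : Gx ≠ 0 := by
    intro h0
    have := hGx 1
    rw [h0, one_smul] at this
    exact hx (by simpa using this.symm)
  have hfin : {z : ℂ | Gx.IsRoot z}.Finite := Polynomial.finite_setOfPred_isRoot hGx0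
  have hev : ∀ᶠ z in nhdsWithin (0 : ℂ) {0}ᶜ, Gx.eval z ≠ 0 :=
    nhdsNE_le_cofinite (0 : ℂ) hfin.compl_mem_cofinite
  filter_upwards [hev] with z hz
  rwa [hGx] at hz

end Pool.Agent.Lib.MP_bb5dbd_ag
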